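import Pool.Agent.TH339.KE.Main

/-!
# Corollaries: the Kostlan ensemble, and small changes of the coefficients
-/

set_option autoImplicit false

open Polynomial Filter Topology Finset MeasureTheory
open scoped ENNReal

namespace Pool.Agent.TH339.KE

/-- the standard complex Gaussian measure -/
noncomputable def gauss : Measure ℂ :=
  volume.withDensity fun w => ENNReal.ofReal (Real.exp (-‖w‖ ^ 2) / Real.pi)

lemma gauss_dens : Dens 1 gauss := by
  have h : gauss ≤ ENNReal.ofReal 1 • (volume : Measure ℂ) := by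
    unfold gauss
    rw [← withDensity_const]
    refine withDensity_mono (ae_of_all _ fun w => ?_)
    apply ENNReal.ofReal_le_ofReal
    rw [div_le_one Real.pi_pos]
    calc Real.exp (-‖w‖ ^ 2) ≤ Real.exp 0 := Real.exp_le_exp.mpr (by nlinarith [norm_nonneg w])
      _ = 1 := Real.exp_zero
      _ ≤ Real.pi := by linarith [Real.pi_gt_three]
  intro B
  have := h B
  simpa using this

lemma int0 : ∫ w : ℂ, Real.exp (-‖w‖ ^ 2) = Real.pi := by
  have h := Complex.integral_exp_neg_rpow (p := 2) (by norm_num)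
  simp only [Real.rpow_two] at h
  rw [h]
  norm_num [Real.Gamma_two]

lemma int2 : ∫ w : ℂ, ‖w‖ ^ 2 * Real.exp (-‖w‖ ^ 2) = Real.pi := by
  have h := Complex.integral_rpow_mul_exp_neg_rpow (p := 2) (q := 2) (by norm_num) (by norm_num)
  simp only [Real.rpow_two] at h
  rw [h]
  norm_num [Real.Gamma_two]

lemma gauss_prob : IsProbabilityMeasure gauss := by
  constructor
  unfold gauss
  rw [withDensity_apply _ MeasurableSet.univ, setLIntegral_univ]
  have hpi := Real.pi_pos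
  have hi : Integrable fun w : ℂ => Real.exp (-‖w‖ ^ 2) := by
    by_contra hcon
    have h := int0
    rw [integral_undef hcon] at h
    exact hpi.ne' h.symm
  rw [← ofReal_integral_eq_lintegral_ofReal (hi.div_const _) (ae_of_all _ fun w => by positivity),
    integral_div, int0, div_self hpi.ne', ENNReal.ofReal_one]

lemma gauss_mom : ∫⁻ w, ENNReal.ofReal (‖w‖ ^ 2) ∂gauss ≤ ENNReal.ofReal 1 := by
  unfold gauss
  have hpi := Real.pi_pos
  have hm : Measurable fun w : ℂ => ENNReal.ofReal (Real.exp (-‖w‖ ^ 2) / Real.pi) := by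
    fun_prop
  rw [lintegral_withDensity_eq_lintegral_mul _ hm (by fun_prop)]
  have hi : Integrable fun w : ℂ => ‖w‖ ^ 2 * Real.exp (-‖w‖ ^ 2) := by
    by_contra hcon
    have h := int2
    rw [integral_undef hcon] at h
    exact hpi.ne' h.symm
  have e : ∀ w : ℂ, ((fun w : ℂ => ENNReal.ofReal (Real.exp (-‖w‖ ^ 2) / Real.pi)) *
      fun w : ℂ => ENNReal.ofReal (‖w‖ ^ 2)) w =
      ENNReal.ofReal (‖w‖ ^ 2 * Real.exp (-‖w‖ ^ 2) / Real.pi) := fun w => by
    rw [Pi.mul_apply, ← ENNReal.ofReal_mul (by positivity)]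
    congr 1
    ring
  simp only [e]
  rw [← ofReal_integral_eq_lintegral_ofReal (hi.div_const _) (ae_of_all _ fun w => by positivity),
    integral_div, int2, div_self hpi.ne']

/-- the uniform law on a disc -/
noncomputable def unif (c : ℂ) (ε : ℝ) : Measure ℂ :=
  ENNReal.ofReal ((Real.pi * ε ^ 2)⁻¹) • volume.restrict (Metric.closedBall c ε)

lemma unif_dens (c : ℂ) {ε : ℝ} (hε : 0 < ε) : Dens (ε ^ 2)⁻¹ (unif c ε) := by
  intro B
  unfold unif
  rw [Measure.smul_apply, smul_eq_mul]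
  have hpi := Real.pi_gt_three
  gcongr
  · nlinarith [sq_nonneg ε]
  · exact Measure.restrict_le_self

lemma unif_prob (c : ℂ) {ε : ℝ} (hε : 0 < ε) : IsProbabilityMeasure (unif c ε) := by
  constructor
  unfold unif
  have hpi := Real.pi_pos
  rw [Measure.smul_apply, smul_eq_mul, Measure.restrict_apply MeasurableSet.univ, Set.univ_inter,
    vol_ball c ε hε.le, ← ENNReal.ofReal_mul (by positivity), inv_mul_cancel₀ (by positivity),
    ENNReal.ofReal_one]

lemma unif_supp (c : ℂ) {ε : ℝ} : unif c ε {w | ¬ ‖w - c‖ ≤ ε} = 0 := by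
  unfold unif
  rw [Measure.smul_apply, smul_eq_mul]
  have : {w : ℂ | ¬ ‖w - c‖ ≤ ε} = (Metric.closedBall c ε)ᶜ := by
    ext w
    rw [Set.mem_compl_iff, mem_closedBall_iff_norm]
    exact Iff.rfl
  rw [this, Measure.restrict_apply Metric.isClosed_closedBall.measurableSet.compl,
    Set.compl_inter_self, measure_empty, mul_zero]

lemma unif_mom {c : ℂ} {A ε : ℝ} (hε : 0 < ε) (hε1 : ε ≤ 1) (hA : 1 ≤ A) (hc : ‖c‖ ≤ A) :
    ∫⁻ w, ENNReal.ofReal (‖w‖ ^ 2) ∂(unif c ε) ≤ ENNReal.ofReal (4 * A ^ 2) := by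
  have hP := unif_prob c hε
  have h1 : ∀ᵐ w ∂(unif c ε), ENNReal.ofReal (‖w‖ ^ 2) ≤ ENNReal.ofReal (4 * A ^ 2) := by
    have h2 : ∀ᵐ w ∂(unif c ε), ‖w - c‖ ≤ ε := unif_supp c
    filter_upwards [h2] with w hw
    apply ENNReal.ofReal_le_ofReal
    have h3 : ‖w‖ ≤ 2 * A := by
      calc ‖w‖ = ‖w - c + c‖ := by rw [sub_add_cancel]
        _ ≤ ‖w - c‖ + ‖c‖ := norm_add_le _ _
        _ ≤ _ := by linarith
    calc ‖w‖ ^ 2 ≤ (2 * A) ^ 2 := by gcongr
      _ = _ := by ring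
  calc ∫⁻ w, ENNReal.ofReal (‖w‖ ^ 2) ∂(unif c ε) ≤ ∫⁻ _, ENNReal.ofReal (4 * A ^ 2) ∂(unif c ε) :=
        lintegral_mono_ae h1
    _ = ENNReal.ofReal (4 * A ^ 2) := by rw [lintegral_const, measure_univ, mul_one]

/-- the degree of `P N x` -/
lemma natDegree_P {N : ℕ} {x : Fin (N + 1) → ℂ} (hx : x (Fin.last N) ≠ 0) :
    (P N x).natDegree = N := by
  unfold P
  rw [Fin.sum_univ_castSucc]
  have hb : ((b N N : ℝ) : ℂ) * x (Fin.last N) ≠ 0 := by
    refine mul_ne_zero ?_ hx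
    unfold b
    simp
  rw [Polynomial.natDegree_add_eq_right_of_degree_lt]
  · simp only [Fin.val_last]
    exact Polynomial.natDegree_C_mul_X_pow _ _ hb
  · simp only [Fin.val_last]
    rw [Polynomial.degree_C_mul_X_pow _ hb]
    refine (Polynomial.degree_sum_le _ _).trans_lt ?_
    rw [Finset.sup_lt_iff (WithBot.bot_lt_coe _)]
    intro k _
    refine (Polynomial.degree_C_mul_X_pow_le _ _).trans_lt ?_
    simp only [Fin.val_castSucc]
    exact_mod_cast k.2

/-- Changing the coefficients a little. -/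
theorem coarse (N : ℕ) (hN : 2 ≤ N) (A ε : ℝ) (hA : 1 ≤ A) (hε : ε ≤ 1)
    (hεN : 9000 * Real.log (N * A) / √N ≤ ε) (c : Fin (N + 1) → ℂ) (hc : ∀ k, ‖c k‖ ≤ A) :
    ∃ y : Fin (N + 1) → ℂ, (∀ k, ‖y k - c k‖ ≤ ε) ∧ (P N y).natDegree = N ∧
      ∀ z : ℂ, (derivative (P N y)).eval z = 0 →
        Tendsto (fun k : ℕ => ‖(fun w => (P N y).eval w)^[k] z‖) atTop atTop := by
  have hNR : (2 : ℝ) ≤ N := by exact_mod_cast hN
  have hN0 : (0 : ℝ) < N := by linarith
  have hNA : 2 ≤ N * A := by nlinarith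
  set L : ℝ := Real.log (N * A) with hL
  have hlog : 0.69 < L := by
    have h1 := Real.log_two_gt_d9
    have h2 : Real.log 2 ≤ L := Real.log_le_log (by norm_num) hNA
    linarith
  have hs : 0 < √(N : ℝ) := Real.sqrt_pos.mpr hN0
  have hss : √(N : ℝ) ^ 2 = N := Real.sq_sqrt hN0.le
  have h1 : 9000 * L ≤ ε * √N := by rwa [div_le_iff₀ hs] at hεN
  have hε0 : 0 < ε := by
    by_contra hcon
    push Not at hcon
    have : ε * √N ≤ 0 := mul_nonpos_of_nonpos_of_nonneg hcon hs.le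
    linarith
  have h2 : (9000 * L) ^ 2 ≤ ε ^ 2 * N := by
    calc (9000 * L) ^ 2 ≤ (ε * √N) ^ 2 := by gcongr
      _ = ε ^ 2 * N := by rw [mul_pow, hss]
  have h4 : 4 ≤ ε ^ 2 * N := by nlinarith
  have hε2 : 0 < ε ^ 2 := by positivity
  set μ : Fin (N + 1) → Measure ℂ := fun k => unif (c k) ε with hμ
  have : ∀ k, IsProbabilityMeasure (μ k) := fun k => unif_prob (c k) hε0
  have hD : 1 ≤ (ε ^ 2)⁻¹ := by
    rw [one_le_inv₀ hε2]
    nlinarith
  have hW : 1 ≤ 4 * A ^ 2 := by nlinarith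
  have hmain := main N hN μ (ε ^ 2)⁻¹ (4 * A ^ 2) hD hW (fun k => unif_dens (c k) hε0)
    (fun k => unif_mom hε0 hε hA (hc k))
  set Bad : Set (Fin (N + 1) → ℂ) := {x | ¬ ∀ c : ℂ, (derivative (P N x)).eval c = 0 →
      Tendsto (fun k : ℕ => ‖(fun w => (P N x).eval w)^[k] c‖) atTop atTop} with hBad
  have hlt : Measure.pi μ Bad < 1 := by
    refine hmain.trans_lt ?_
    rw [← ENNReal.ofReal_one]
    rw [ENNReal.ofReal_lt_ofReal_iff (by norm_num)]
    have hlog2 : Real.log (N * (ε ^ 2)⁻¹ * (4 * A ^ 2)) ≤ 2 * L := by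
      have e : 2 * L = Real.log ((N * A) ^ 2) := by rw [Real.log_pow]; push_cast; rfl
      rw [e]
      apply Real.log_le_log (by positivity)
      have h5 : (ε ^ 2)⁻¹ ≤ N / 4 := by
        rw [inv_le_iff_one_le_mul₀ hε2]
        linarith
      calc N * (ε ^ 2)⁻¹ * (4 * A ^ 2) ≤ N * (N / 4) * (4 * A ^ 2) := by gcongr
        _ = (N * A) ^ 2 := by ring
    have hlog0 : 0 ≤ Real.log (N * (ε ^ 2)⁻¹ * (4 * A ^ 2)) := by
      apply Real.log_nonneg
      have : (1 : ℝ) * 1 * 1 ≤ N * (ε ^ 2)⁻¹ * (4 * A ^ 2) := by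
        gcongr
        linarith
      linarith
    rw [div_lt_one hN0]
    calc 2 * 10 ^ 7 * (ε ^ 2)⁻¹ * Real.log (N * (ε ^ 2)⁻¹ * (4 * A ^ 2)) ^ 2
        ≤ 2 * 10 ^ 7 * (ε ^ 2)⁻¹ * (2 * L) ^ 2 := by gcongr
      _ = (80000000 * L ^ 2) / ε ^ 2 := by field_simp; ring
      _ < N := by
          rw [div_lt_iff₀ hε2]
          nlinarith
  have hz : ∀ k : Fin (N + 1), ∀ S : Set ℂ, μ k S = 0 →
      Measure.pi μ {x : Fin (N + 1) → ℂ | x k ∈ S} = 0 := by
    intro k S hS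
    exact Measure.pi_eval_preimage_null μ hS
  set Z1 : Set (Fin (N + 1) → ℂ) :=
    ⋃ k : Fin (N + 1), {x : Fin (N + 1) → ℂ | x k ∈ {w : ℂ | ¬ ‖w - c k‖ ≤ ε}} with hZ1
  set Z2 : Set (Fin (N + 1) → ℂ) :=
    {x : Fin (N + 1) → ℂ | x (Fin.last N) ∈ ({0} : Set ℂ)} with hZ2
  have h0 : μ (Fin.last N) ({0} : Set ℂ) = 0 := by
    have h3 := unif_dens (c (Fin.last N)) hε0 {0}
    have hv : (volume : Measure ℂ) {0} = 0 := measure_singleton 0
    rw [hv, mul_zero] at h3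
    exact le_antisymm h3 zero_le
  have hZ1m : Measure.pi μ Z1 = 0 := measure_iUnion_null fun k => hz k _ (unif_supp (c k))
  have hZ2m : Measure.pi μ Z2 = 0 := hz (Fin.last N) _ h0
  have hall : Measure.pi μ (Bad ∪ (Z1 ∪ Z2)) < 1 := by
    refine (measure_union_le _ _).trans_lt ?_
    have h3 : Measure.pi μ (Z1 ∪ Z2) = 0 := measure_union_null hZ1m hZ2m
    rw [h3, add_zero]
    exact hlt
  have hne : ∃ y, y ∉ Bad ∪ (Z1 ∪ Z2) := by
    by_contra hcon
    push Not at hcon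
    rw [Set.eq_univ_of_forall hcon, measure_univ] at hall
    exact lt_irrefl _ hall
  obtain ⟨y, hy⟩ := hne
  simp only [Set.mem_union, not_or, hZ1, hZ2, Set.mem_iUnion, not_exists, Set.mem_ofPred_eq,
    not_not, Set.mem_singleton_iff, hBad] at hy
  exact ⟨y, hy.2.1, natDegree_P hy.2.2, hy.1⟩

end Pool.Agent.TH339.KE
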