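import Mathlib

/-!
# Random polynomials with Kostlan weights: basic estimates
-/

set_option autoImplicit false

open Polynomial Filter Topology Finset

namespace Pool.Agent.TH339.KE

/-- the Kostlan weights -/
noncomputable def b (N k : ℕ) : ℝ := √(N.choose k)

/-- the value at `z` of the polynomial with weighted coefficients `x` -/
noncomputable def f (N : ℕ) (x : Fin (N + 1) → ℂ) (z : ℂ) : ℂ :=
  ∑ k : Fin (N + 1), (b N k : ℂ) * x k * z ^ (k : ℕ)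

/-- the polynomial with weighted coefficients `x` -/
noncomputable def P (N : ℕ) (x : Fin (N + 1) → ℂ) : ℂ[X] :=
  ∑ k : Fin (N + 1), C ((b N k : ℂ) * x k) * X ^ (k : ℕ)

lemma eval_P (N : ℕ) (x : Fin (N + 1) → ℂ) (z : ℂ) : (P N x).eval z = f N x z := by
  simp [P, f, eval_finsetSum]

lemma b_nonneg (N k : ℕ) : 0 ≤ b N k := Real.sqrt_nonneg _

lemma b_sq (N k : ℕ) : b N k ^ 2 = N.choose k := Real.sq_sqrt (by positivity)

lemma b_zero (N : ℕ) : b N 0 = 1 := by simp [b]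

lemma b_top (N : ℕ) : b N N = 1 := by simp [b]

lemma f_update (N : ℕ) (x : Fin (N + 1) → ℂ) (z : ℂ) (k : Fin (N + 1)) (t : ℂ) :
    f N (Function.update x k t) z = f N x z + (b N k : ℂ) * (t - x k) * z ^ (k : ℕ) := by
  unfold f
  rw [← Finset.sum_erase_add _ _ (Finset.mem_univ k),
    ← Finset.sum_erase_add (a := k) (s := Finset.univ) (f := fun k : Fin (N + 1) =>
      (b N k : ℂ) * x k * z ^ (k : ℕ)) (Finset.mem_univ k)]
  rw [Function.update_self]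
  have : ∑ j ∈ Finset.univ.erase k, (b N j : ℂ) * Function.update x k t j * z ^ (j : ℕ) =
      ∑ j ∈ Finset.univ.erase k, (b N j : ℂ) * x j * z ^ (j : ℕ) := by
    refine Finset.sum_congr rfl fun j hj => ?_
    rw [Function.update_of_ne (Finset.ne_of_mem_erase hj)]
  rw [this]
  ring

/-- the polynomial without the constant term -/
noncomputable def h (N : ℕ) (x : Fin (N + 1) → ℂ) (z : ℂ) : ℂ := f N (Function.update x 0 0) z

lemma f_eq (N : ℕ) (x : Fin (N + 1) → ℂ) (z : ℂ) : f N x z = x 0 + h N x z := by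
  unfold h
  rw [f_update]
  simp [b_zero]

lemma h_update_zero (N : ℕ) (x : Fin (N + 1) → ℂ) (t z : ℂ) :
    h N (Function.update x 0 t) z = h N x z := by
  unfold h
  rw [Function.update_idem]

lemma h_update (N : ℕ) (x : Fin (N + 1) → ℂ) (z : ℂ) (k : Fin (N + 1)) (hk : k ≠ 0) (t : ℂ) :
    h N (Function.update x k t) z = h N x z + (b N k : ℂ) * (t - x k) * z ^ (k : ℕ) := by
  unfold h
  rw [Function.update_comm hk, f_update, Function.update_of_ne hk]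

/-- the variance -/
noncomputable def S2 (N : ℕ) (z : ℂ) : ℝ := (1 + ‖z‖ ^ 2) ^ N

lemma S2_pos (N : ℕ) (z : ℂ) : 0 < S2 N z := by unfold S2; positivity

lemma one_le_S2 (N : ℕ) (z : ℂ) : 1 ≤ S2 N z := by
  unfold S2
  exact one_le_pow₀ (by nlinarith [sq_nonneg ‖z‖])

/-- the square of the modulus of the `k`-th term -/
noncomputable def u2 (N : ℕ) (z : ℂ) (k : ℕ) : ℝ := (N.choose k : ℝ) * (‖z‖ ^ 2) ^ k

lemma u2_nonneg (N : ℕ) (z : ℂ) (k : ℕ) : 0 ≤ u2 N z k := by unfold u2; positivity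

lemma u2_eq (N : ℕ) (z : ℂ) (k : ℕ) : u2 N z k = (b N k * ‖z‖ ^ k) ^ 2 := by
  unfold u2
  rw [mul_pow, b_sq, ← pow_mul, ← pow_mul, mul_comm k 2]

lemma sum_u2 (N : ℕ) (z : ℂ) : ∑ k ∈ Finset.range (N + 1), u2 N z k = S2 N z := by
  unfold u2 S2
  rw [add_comm (1 : ℝ), add_pow]
  refine Finset.sum_congr rfl fun k _ => ?_
  rw [one_pow, mul_one, mul_comm]

lemma norm_f_le (N : ℕ) (x : Fin (N + 1) → ℂ) (M : ℝ) (hM : ∀ k, ‖x k‖ ≤ M) (z : ℂ) :
    ‖f N x z‖ ≤ M * √((N : ℝ) + 1) * √(S2 N z) := by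
  have hM0 : 0 ≤ M := (norm_nonneg _).trans (hM 0)
  have h1 : ‖f N x z‖ ≤ M * ∑ k ∈ Finset.range (N + 1), b N k * ‖z‖ ^ k := by
    unfold f
    refine (norm_sum_le _ _).trans ?_
    rw [Finset.mul_sum, ← Fin.sum_univ_eq_sum_range (fun k => M * (b N k * ‖z‖ ^ k)) (N + 1)]
    refine Finset.sum_le_sum fun k _ => ?_
    rw [norm_mul, norm_mul, norm_pow, Complex.norm_real, Real.norm_eq_abs,
      abs_of_nonneg (b_nonneg N k)]
    have := hM k
    have h2 : b N k * ‖x k‖ * ‖z‖ ^ (k : ℕ) = ‖x k‖ * (b N k * ‖z‖ ^ (k : ℕ)) := by ring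
    rw [h2]
    have h3 : 0 ≤ b N k * ‖z‖ ^ (k : ℕ) := mul_nonneg (b_nonneg N k) (by positivity)
    gcongr
  have h2 : (∑ k ∈ Finset.range (N + 1), b N k * ‖z‖ ^ k) ^ 2 ≤ ((N : ℝ) + 1) * S2 N z := by
    have := @sq_sum_le_card_mul_sum_sq ℕ ℝ _ _ _ _ (Finset.range (N + 1)) (fun k => b N k * ‖z‖ ^ k)
    rw [Finset.card_range] at this
    refine this.trans (le_of_eq ?_)
    rw [← sum_u2]
    push_cast
    congr 1
    exact Finset.sum_congr rfl fun k _ => (u2_eq N z k).symm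
  have h3 : ∑ k ∈ Finset.range (N + 1), b N k * ‖z‖ ^ k ≤ √((N : ℝ) + 1) * √(S2 N z) := by
    rw [← Real.sqrt_mul (by positivity)]
    exact Real.le_sqrt_of_sq_le h2
  calc ‖f N x z‖ ≤ M * ∑ k ∈ Finset.range (N + 1), b N k * ‖z‖ ^ k := h1
    _ ≤ M * (√((N : ℝ) + 1) * √(S2 N z)) := by gcongr
    _ = _ := by ring

/-- a term of at least average size -/
lemma exists_max (N : ℕ) (z : ℂ) (hz : 2 ≤ S2 N z) :
    ∃ k : ℕ, 1 ≤ k ∧ k ≤ N ∧ S2 N z / (2 * N) ≤ u2 N z k := by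
  have hN : 0 < N := by
    rcases Nat.eq_zero_or_pos N with h | h
    · subst h; simp [S2] at hz
    · exact h
  have hNR : (0 : ℝ) < N := by exact_mod_cast hN
  by_contra hcon
  push Not at hcon
  have h1 : ∑ k ∈ Finset.Icc 1 N, u2 N z k < S2 N z / 2 := by
    have h2 : ∑ k ∈ Finset.Icc 1 N, u2 N z k < ∑ k ∈ Finset.Icc 1 N, S2 N z / (2 * N) := by
      refine Finset.sum_lt_sum_of_nonempty ⟨1, Finset.mem_Icc.mpr ⟨le_rfl, hN⟩⟩ fun k hk => ?_
      rw [Finset.mem_Icc] at hk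
      exact hcon k hk.1 hk.2
    rw [Finset.sum_const, Nat.card_Icc, nsmul_eq_mul] at h2
    have h3 : ((N + 1 - 1 : ℕ) : ℝ) * (S2 N z / (2 * N)) = S2 N z / 2 := by
      rw [Nat.add_sub_cancel]; field_simp
    linarith
  have h2 := sum_u2 N z
  have h3 : ∑ k ∈ Finset.range (N + 1), u2 N z k = u2 N z 0 + ∑ k ∈ Finset.Icc 1 N, u2 N z k := by
    rw [Finset.range_eq_Ico, Finset.sum_eq_sum_Ico_succ_bot (by omega)]
    rfl
  have h4 : u2 N z 0 = 1 := by simp [u2]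
  rw [h3, h4] at h2
  linarith

/-- a neighbouring term -/
lemma exists_adj (N : ℕ) (hN : 2 ≤ N) (z : ℂ) (q : ℝ) (hq0 : 0 < q) (hq : q * N ≤ ‖z‖ ^ 2)
    (hq' : q * ‖z‖ ^ 2 ≤ 1)
    (k : ℕ) (hk1 : 1 ≤ k) (hk : k ≤ N) :
    ∃ l : ℕ, 1 ≤ l ∧ l ≤ N ∧ (l = k + 1 ∨ k = l + 1) ∧ q * u2 N z k ≤ u2 N z l := by
  have hNR : (2 : ℝ) ≤ N := by exact_mod_cast hN
  have hz2 : 0 < ‖z‖ ^ 2 := lt_of_lt_of_le (by positivity) hq
  rcases Nat.lt_or_ge k N with hlt | hge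
  · refine ⟨k + 1, by omega, by omega, Or.inl rfl, ?_⟩
    unfold u2
    have h1 : (N.choose (k + 1) : ℝ) * (k + 1) = N.choose k * (N - k) := by
      have := Nat.choose_succ_right_eq N k
      have h2 : ((N.choose (k + 1) * (k + 1) : ℕ) : ℝ) = ((N.choose k * (N - k) : ℕ) : ℝ) := by
        rw [this]
      push_cast [Nat.cast_sub hk] at h2
      exact h2
    have h2 : (N.choose k : ℝ) ≤ N.choose (k + 1) * N := by
      have h3 : (1 : ℝ) ≤ N - k := by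
        have : (k : ℝ) + 1 ≤ N := by exact_mod_cast hlt
        linarith
      have h4 : (0 : ℝ) ≤ N.choose k := by positivity
      have h5 : (k : ℝ) + 1 ≤ N := by exact_mod_cast hlt
      calc (N.choose k : ℝ) ≤ N.choose k * (N - k) := by nlinarith
        _ = N.choose (k + 1) * (k + 1) := h1.symm
        _ ≤ N.choose (k + 1) * N := by gcongr
    calc q * ((N.choose k : ℝ) * (‖z‖ ^ 2) ^ k) ≤ q * ((N.choose (k + 1) * N) * (‖z‖ ^ 2) ^ k) := by
          gcongr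
      _ = N.choose (k + 1) * ((q * N) * (‖z‖ ^ 2) ^ k) := by ring
      _ ≤ N.choose (k + 1) * (‖z‖ ^ 2 * (‖z‖ ^ 2) ^ k) := by gcongr
      _ = _ := by rw [pow_succ' (‖z‖ ^ 2) k]
  · have hkN : k = N := le_antisymm hk hge
    subst hkN
    refine ⟨k - 1, by omega, by omega, Or.inr (by omega), ?_⟩
    obtain ⟨m, rfl⟩ : ∃ m, k = m + 1 := ⟨k - 1, by omega⟩
    unfold u2
    rw [Nat.add_sub_cancel, Nat.choose_self, Nat.choose_succ_self_right]
    push_cast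
    have h1 : (1 : ℝ) ≤ (m : ℝ) + 1 := by linarith [Nat.cast_nonneg (α := ℝ) m]
    calc q * (1 * (‖z‖ ^ 2) ^ (m + 1)) = (q * ‖z‖ ^ 2) * (‖z‖ ^ 2) ^ m := by ring
      _ ≤ 1 * (‖z‖ ^ 2) ^ m := by gcongr
      _ ≤ ((m : ℝ) + 1) * (‖z‖ ^ 2) ^ m := by gcongr

end Pool.Agent.TH339.KE
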