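import Mathlib

/-!
# Few zeros in a disc
-/

set_option autoImplicit false

open Polynomial Filter Topology Finset

namespace Pool.Agent.TH339.KE

lemma card_roots (p : ℂ[X]) (hp : p ≠ 0) (r B : ℝ) (hr : 0 < r)
    (hB : ∀ z : ℂ, ‖z‖ = 3 * r → ‖p.eval z‖ ≤ B) :
    ‖p.eval 0‖ * 2 ^ (p.roots.toFinset.filter (fun c => ‖c‖ ≤ r)).card ≤ B := by
  set Z := p.roots.toFinset.filter (fun c => ‖c‖ ≤ r) with hZ
  have hZr : ∀ c ∈ Z, ‖c‖ ≤ r := fun c hc => (Finset.mem_filter.mp hc).2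
  have hdvd : (∏ c ∈ Z, (X - C c)) ∣ p := by
    have h1 : Z.val ≤ p.roots := by
      rw [Multiset.le_iff_subset Z.nodup]
      intro c hc
      have : c ∈ Z := hc
      exact Multiset.mem_toFinset.mp (Finset.mem_filter.mp this).1
    exact (Multiset.prod_X_sub_C_dvd_iff_le_roots hp Z.val).mpr h1
  obtain ⟨q, hq⟩ := hdvd
  have h1 : ∀ z ∈ frontier (Metric.ball (0 : ℂ) (3 * r)), ‖q.eval z‖ ≤ B / (2 * r) ^ Z.card := by
    intro z hz
    rw [frontier_ball (0 : ℂ) (by positivity), mem_sphere_zero_iff_norm] at hz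
    have h2 := hB z hz
    rw [hq, eval_mul, norm_mul, eval_prod, norm_prod] at h2
    have h3 : (2 * r) ^ Z.card ≤ ∏ c ∈ Z, ‖(X - C c).eval z‖ := by
      rw [← Finset.prod_const]
      refine Finset.prod_le_prod (fun _ _ => by positivity) fun c hc => ?_
      rw [eval_sub, eval_X, eval_C]
      have := norm_sub_norm_le z c
      have := hZr c hc
      linarith
    rw [le_div_iff₀ (by positivity)]
    calc ‖q.eval z‖ * (2 * r) ^ Z.card ≤ ‖q.eval z‖ * ∏ c ∈ Z, ‖(X - C c).eval z‖ := by gcongr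
      _ ≤ B := by rw [mul_comm]; exact h2
  have h2 : ‖q.eval 0‖ ≤ B / (2 * r) ^ Z.card := by
    refine Complex.norm_le_of_forall_mem_frontier_norm_le Metric.isBounded_ball
      (f := fun z => q.eval z) (q.differentiable.diffContOnCl) h1 ?_
    exact subset_closure (Metric.mem_ball_self (by positivity))
  rw [hq, eval_mul, norm_mul, eval_prod, norm_prod]
  have h3 : ∏ c ∈ Z, ‖(X - C c).eval 0‖ ≤ r ^ Z.card := by
    rw [← Finset.prod_const]
    refine Finset.prod_le_prod (fun _ _ => norm_nonneg _) fun c hc => ?_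
    rw [eval_sub, eval_X, eval_C, zero_sub, norm_neg]
    exact hZr c hc
  calc (∏ c ∈ Z, ‖(X - C c).eval 0‖) * ‖q.eval 0‖ * 2 ^ Z.card
      ≤ r ^ Z.card * (B / (2 * r) ^ Z.card) * 2 ^ Z.card := by gcongr
    _ = B := by
        rw [mul_pow]
        field_simp

end Pool.Agent.TH339.KE
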