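import Pool.Agent.TH339.KE.Small
import Pool.Agent.TH339.KE.Cnt

/-!
# Deterministic part
-/

set_option autoImplicit false

open Polynomial Filter Topology Finset MeasureTheory
open scoped ENNReal

namespace Pool.Agent.TH339.KE

/-- standing assumptions -/
structure SA (N : ℕ) (X r : ℝ) : Prop where
  hN : 2 ≤ N
  hX : 2 ≤ X
  hNX : (N : ℝ) ≤ X
  r0 : 0 < r
  r1 : r ≤ 1
  hr : r ^ 2 * N = 800 * Real.log X

lemma SA.X0 {N : ℕ} {X r : ℝ} (H : SA N X r) : 0 < X := by linarith [H.hX]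

lemma SA.log_pos {N : ℕ} {X r : ℝ} (H : SA N X r) : 0.69 < Real.log X := by
  have h1 := Real.log_two_gt_d9
  have h2 : Real.log 2 ≤ Real.log X := Real.log_le_log (by norm_num) H.hX
  linarith

lemma SA.S2_ge {N : ℕ} {X r : ℝ} (H : SA N X r) (z : ℂ) (hz : r / 2 ≤ ‖z‖) :
    X ^ 100 ≤ S2 N z := by
  have hX0 := H.X0
  have h1 : X ^ 100 = Real.exp (100 * Real.log X) := by
    rw [mul_comm, Real.exp_mul, Real.exp_log hX0]
    norm_cast
  have hy0 : 0 ≤ r ^ 2 / 4 := by positivity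
  have hy1 : r ^ 2 / 4 ≤ 1 := by nlinarith [H.r0, H.r1]
  have h2 : Real.exp (r ^ 2 / 8) ≤ 1 + r ^ 2 / 4 := by
    have h3 := Real.abs_exp_sub_one_le (x := r ^ 2 / 8) (by rw [abs_of_nonneg (by positivity)]; linarith)
    rw [abs_of_nonneg (show (0 : ℝ) ≤ r ^ 2 / 8 by positivity)] at h3
    have := (abs_le.mp h3).2
    linarith
  have h3 : X ^ 100 = Real.exp (r ^ 2 / 8) ^ N := by
    rw [h1, ← Real.exp_nat_mul]
    congr 1
    have := H.hr
    linarith
  rw [h3]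
  unfold S2
  have h4 : r ^ 2 / 4 ≤ ‖z‖ ^ 2 := by
    have : (r / 2) ^ 2 ≤ ‖z‖ ^ 2 := by
      have := H.r0
      gcongr
    linarith
  calc Real.exp (r ^ 2 / 8) ^ N ≤ (1 + r ^ 2 / 4) ^ N := by gcongr
    _ ≤ (1 + ‖z‖ ^ 2) ^ N := by gcongr

/-- the size of the discs -/
noncomputable def rho (X : ℝ) : ℝ := (X ^ 24)⁻¹

/-- good coefficients -/
def Good (N : ℕ) (X : ℝ) (x : Fin (N + 1) → ℂ) : Prop :=
  (∀ k, ‖x k‖ ≤ X ^ 2) ∧ (∀ k : Fin (N + 1), (k : ℕ) = 1 → X⁻¹ ≤ ‖x k‖) ∧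
    X⁻¹ ≤ ‖x (Fin.last N)‖

lemma Good.h_ge {N : ℕ} {X r : ℝ} (H : SA N X r) {x : Fin (N + 1) → ℂ} (hx : Good N X x) (z : ℂ)
    (hz : X ^ 6 ≤ ‖z‖) : 2 * X ^ 6 < ‖h N x z‖ := by
  have hN := H.hN
  have hX := H.hX
  have h1 := norm_f_ge N H.hN (Function.update x 0 0) X H.hX H.hNX (fun k => by
    by_cases hk : k = 0
    · subst hk; rw [Function.update_self, norm_zero]; positivity
    · rw [Function.update_of_ne hk]; exact hx.1 k) (by
    have : Fin.last N ≠ 0 := fun h0 => by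
      have := congrArg Fin.val h0
      simp at this
      omega
    rw [Function.update_of_ne this]
    exact hx.2.2) z hz
  refine lt_of_lt_of_le ?_ h1
  rw [lt_div_iff₀ (by linarith)]
  have h2 : 2 * X ^ 6 * (2 * X) < X ^ 6 * X ^ 6 := by
    have h3 : 4 * X < X ^ 6 := by
      have : (4 : ℝ) < X ^ 5 := by
        calc (4 : ℝ) < 2 ^ 5 := by norm_num
          _ ≤ X ^ 5 := by gcongr
      calc 4 * X < X ^ 5 * X := by gcongr
        _ = X ^ 6 := by ring
    have h4 : (0 : ℝ) < X ^ 6 := by positivity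
    nlinarith
  have h3 : X ^ 6 * X ^ 6 ≤ ‖z‖ * ‖z‖ := by gcongr
  nlinarith

/-- the region where both `h` and `h'` are small -/
def AA (N : ℕ) (X r : ℝ) : Set ((Fin (N + 1) → ℂ) × ℂ) :=
  {p | r / 2 ≤ ‖p.2‖ ∧ ‖p.2‖ ≤ 2 * X ^ 6 ∧
    ‖h N p.1 p.2‖ ≤ 28 * X ^ 5 * rho X ^ 2 * √(S2 N p.2) ∧
    ‖fd N p.1 p.2‖ ≤ 27 * X ^ 5 * rho X * √(S2 N p.2)}

lemma SA.rho_facts {N : ℕ} {X r : ℝ} (H : SA N X r) :
    0 < rho X ∧ rho X * N ≤ 1 ∧ rho X ≤ r / 2 ∧ rho X ≤ 1 := by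
  have hX := H.hX
  have hX0 := H.X0
  have h1 : 0 < rho X := by unfold rho; positivity
  have h2 : rho X ≤ (X)⁻¹ / 8 := by
    unfold rho
    have : X * 8 ≤ X ^ 24 := by
      have : (8 : ℝ) ≤ X ^ 23 := by
        calc (8 : ℝ) ≤ 2 ^ 23 := by norm_num
          _ ≤ X ^ 23 := by gcongr
      calc X * 8 ≤ X * X ^ 23 := by gcongr
        _ = X ^ 24 := by ring
    calc (X ^ 24)⁻¹ ≤ (X * 8)⁻¹ := by gcongr
      _ = X⁻¹ / 8 := by rw [mul_inv]; ring
  have h3 : X⁻¹ ≤ r := by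
    -- `r ^ 2 = 800 log X / N ≥ 1 / X`, so `r ≥ r^2 ≥ 1/X`
    have h4 : X⁻¹ ≤ r ^ 2 := by
      have hN0 : (0 : ℝ) < N := by have := H.hN; exact_mod_cast (by omega : 0 < N)
      have h5 : r ^ 2 = 800 * Real.log X / N := by
        rw [eq_div_iff hN0.ne']; exact H.hr
      rw [h5, inv_eq_one_div, div_le_div_iff₀ hX0 hN0]
      have := H.log_pos
      have := H.hNX
      nlinarith
    have h5 : r ^ 2 ≤ r := by nlinarith [H.r0, H.r1]
    linarith
  have hX1 : X⁻¹ ≤ 1 := inv_le_one_of_one_le₀ (by linarith)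
  have hXi : 0 < X⁻¹ := by positivity
  refine ⟨h1, ?_, by linarith, by linarith⟩
  calc rho X * N ≤ (X⁻¹ / 8) * X := by
        have := H.hNX
        gcongr
    _ = 1 / 8 := by field_simp
    _ ≤ 1 := by norm_num

/-- A critical point with small critical value away from the origin produces a disc on which `h` and
`h'` are small. -/
lemma disc_of_crit {N : ℕ} {X r : ℝ} (H : SA N X r) {x : Fin (N + 1) → ℂ} (hx : Good N X x) (c : ℂ)
    (hc : deriv (h N x) c = 0) (hcr : r ≤ ‖c‖) (hh : ‖h N x c‖ ≤ 2 * X ^ 6) :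
    Metric.closedBall c (rho X) ⊆ {z | (x, z) ∈ AA N X r} := by
  obtain ⟨hρ0, hρN, hρr, hρ1⟩ := H.rho_facts
  have hX := H.hX
  have hX0 := H.X0
  have hN1 : 1 ≤ N := by have := H.hN; omega
  have hX6 : (1 : ℝ) ≤ X ^ 6 := one_le_pow₀ (by linarith)
  have hc6 : ‖c‖ < X ^ 6 := by
    by_contra hcon
    push Not at hcon
    exact absurd hh (not_le.mpr (hx.h_ge H c hcon))
  have hM : ∀ k, k ≠ 0 → ‖x k‖ ≤ X ^ 2 := fun k _ => hx.1 k
  intro z hz
  have hz' : ‖z - c‖ ≤ rho X := by rwa [mem_closedBall_iff_norm] at hz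
  have hzr : r / 2 ≤ ‖z‖ := by
    have := norm_sub_norm_le c z
    rw [norm_sub_rev] at this
    linarith
  have hS := S2_pos N z
  have hsq : 0 < √(S2 N z) := Real.sqrt_pos.mpr hS
  -- bound for the second derivative on the ball
  have h2 : ∀ w ∈ Metric.closedBall z (rho X), ‖deriv (deriv (h N x)) w‖ ≤
      27 * X ^ 5 * √(S2 N z) := by
    intro w hw
    have hw' : ‖w - z‖ ≤ rho X := by rwa [mem_closedBall_iff_norm] at hw
    refine (norm_deriv2_h_le N H.hN x X hX H.hNX hM w).trans ?_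
    have := sqrt_S2_near N z w (rho X) hρ0.le hρN hN1 hw'
    calc 9 * X ^ 5 * √(S2 N w) ≤ 9 * X ^ 5 * (3 * √(S2 N z)) := by gcongr
      _ = _ := by ring
  have hcz : c ∈ Metric.closedBall z (rho X) := by
    rw [mem_closedBall_iff_norm, norm_sub_rev]; exact hz'
  have hconv := convex_closedBall z (rho X)
  have hd : Differentiable ℂ (deriv (h N x)) := by
    have := (differentiable_h N x).contDiff (n := 2)
    exact (this.differentiable_deriv_two)
  set A : ℝ := 27 * X ^ 5 * √(S2 N z) with hA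
  have hA0 : 0 ≤ A := by positivity
  have h3 : ∀ w ∈ Metric.closedBall c (rho X) ∩ Metric.closedBall z (rho X),
      ‖deriv (h N x) w‖ ≤ A * rho X := by
    rintro w ⟨hw1, hw2⟩
    have h4 := hconv.norm_image_sub_le_of_norm_deriv_le (f := deriv (h N x)) (fun w _ => hd w) h2
      hcz hw2
    rw [hc, sub_zero] at h4
    rw [mem_closedBall_iff_norm] at hw1
    exact h4.trans (by gcongr)
  have hconv2 : Convex ℝ (Metric.closedBall c (rho X) ∩ Metric.closedBall z (rho X)) :=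
    (convex_closedBall c (rho X)).inter hconv
  have hcc : c ∈ Metric.closedBall c (rho X) ∩ Metric.closedBall z (rho X) :=
    ⟨Metric.mem_closedBall_self hρ0.le, hcz⟩
  have hzz : z ∈ Metric.closedBall c (rho X) ∩ Metric.closedBall z (rho X) :=
    ⟨hz, Metric.mem_closedBall_self hρ0.le⟩
  have h4 : ‖h N x z - h N x c‖ ≤ A * rho X * rho X := by
    have h5 := hconv2.norm_image_sub_le_of_norm_deriv_le (f := h N x)
      (fun w _ => differentiable_h N x w) h3 hcc hzz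
    exact h5.trans (by gcongr)
  have h5 : ‖h N x z‖ ≤ 2 * X ^ 6 + A * rho X * rho X := by
    have := norm_sub_norm_le (h N x z) (h N x c)
    linarith
  have hS2 : X ^ 50 ≤ √(S2 N z) := by
    apply Real.le_sqrt_of_sq_le
    have := H.S2_ge z hzr
    calc (X ^ 50) ^ 2 = X ^ 100 := by ring
      _ ≤ _ := this
  have h6 : 2 * X ^ 6 ≤ X ^ 5 * rho X ^ 2 * √(S2 N z) := by
    calc 2 * X ^ 6 ≤ X * X ^ 6 := by gcongr
      _ = X ^ 5 * rho X ^ 2 * X ^ 50 := by
          unfold rho; field_simp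
      _ ≤ X ^ 5 * rho X ^ 2 * √(S2 N z) := by gcongr
  have hfd : ‖fd N x z‖ ≤ A * rho X := by
    rw [← deriv_h_fd]
    exact h3 z hzz
  refine ⟨hzr, ?_, ?_, ?_⟩
  · have := norm_sub_norm_le z c
    show ‖z‖ ≤ 2 * X ^ 6
    linarith
  · show ‖h N x z‖ ≤ 28 * X ^ 5 * rho X ^ 2 * √(S2 N z)
    calc ‖h N x z‖ ≤ X ^ 5 * rho X ^ 2 * √(S2 N z) + A * rho X * rho X := by linarith
      _ = 28 * X ^ 5 * rho X ^ 2 * √(S2 N z) := by rw [hA]; ring
  · show ‖fd N x z‖ ≤ 27 * X ^ 5 * rho X * √(S2 N z)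
    refine hfd.trans (le_of_eq ?_)
    rw [hA]; ring

/-- few critical points near the origin -/
lemma card_crit {N : ℕ} {X r : ℝ} (H : SA N X r) {x : Fin (N + 1) → ℂ}
    (hM : ∀ k, k ≠ 0 → ‖x k‖ ≤ X ^ 2)
    (h1 : ∀ k : Fin (N + 1), (k : ℕ) = 1 → X⁻¹ ≤ ‖x k‖) :
    ∃ Z : Finset ℂ, (∀ c : ℂ, ‖c‖ ≤ r → fd N x c = 0 → c ∈ Z) ∧
      (Z.card : ℝ) ≤ 5204 * Real.log X := by
  have hX := H.hX
  have hX0 := H.X0
  have hN := H.hN
  have hr := H.r0
  set p : ℂ[X] := derivative (P N x) with hp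
  have hpe : ∀ z, p.eval z = fd N x z := by
    intro z
    rw [hp, ← deriv_f, deriv_f_fd]
  have hp0 : X⁻¹ ≤ ‖p.eval 0‖ := by
    rw [hpe]
    have e : fd N x 0 = (b N 1 : ℂ) * x ⟨1, by omega⟩ := by
      unfold fd
      rw [Finset.sum_eq_single (⟨1, by omega⟩ : Fin (N + 1))]
      · simp
      · intro k _ hk
        rcases Nat.eq_zero_or_pos (k : ℕ) with h0 | h0
        · rw [h0]; simp
        · have : 1 < (k : ℕ) := lt_of_le_of_ne h0 fun h => hk (Fin.ext h.symm)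
          rw [zero_pow (by omega)]; simp
      · intro h0; exact absurd (Finset.mem_univ _) h0
    rw [e, norm_mul, Complex.norm_real, Real.norm_eq_abs, abs_of_nonneg (b_nonneg N 1)]
    have h2 : 1 ≤ b N 1 := by
      unfold b
      rw [Nat.choose_one_right]
      exact Real.one_le_sqrt.mpr (by exact_mod_cast (by omega : 1 ≤ N))
    have h3 := h1 ⟨1, by omega⟩ rfl
    calc X⁻¹ ≤ 1 * ‖x ⟨1, by omega⟩‖ := by rw [one_mul]; exact h3
      _ ≤ _ := by gcongr
  have hpne : p ≠ 0 := by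
    intro h0
    rw [h0, eval_zero, norm_zero] at hp0
    have : 0 < X⁻¹ := by positivity
    linarith
  have hB : ∀ z : ℂ, ‖z‖ = 3 * r → ‖p.eval z‖ ≤ 3 * X ^ 4 * X ^ 3600 := by
    intro z hz
    rw [hpe, ← deriv_h_fd]
    refine (norm_deriv_h_le N hN x X hX H.hNX hM z).trans ?_
    have h2 : √(S2 N z) ≤ X ^ 3600 := by
      rw [Real.sqrt_le_left (by positivity)]
      unfold S2
      rw [hz]
      calc (1 + (3 * r) ^ 2) ^ N ≤ (Real.exp ((3 * r) ^ 2)) ^ N := by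
            gcongr
            have := Real.add_one_le_exp ((3 * r) ^ 2)
            linarith
        _ = (X ^ 3600) ^ 2 := by
            rw [← Real.exp_nat_mul, ← pow_mul]
            have h3 : (N : ℝ) * (3 * r) ^ 2 = Real.log X * (3600 * 2 : ℕ) := by
              have := H.hr
              push_cast
              linarith
            rw [h3, Real.exp_mul, Real.exp_log hX0, Real.rpow_natCast]
    gcongr
  have h2 := card_roots p hpne r _ hr hB
  refine ⟨p.roots.toFinset.filter (fun c => ‖c‖ ≤ r), fun c hc1 hc2 => ?_, ?_⟩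
  · rw [Finset.mem_filter, Multiset.mem_toFinset, mem_roots hpne]
    exact ⟨by rw [IsRoot.def, hpe]; exact hc2, hc1⟩
  · set n := (p.roots.toFinset.filter (fun c => ‖c‖ ≤ r)).card with hn
    have h3 : (2 : ℝ) ^ n ≤ X ^ 3607 := by
      have h4 : X⁻¹ * 2 ^ n ≤ 3 * X ^ 4 * X ^ 3600 := le_trans (by gcongr) h2
      have h5 : (3 : ℝ) ≤ X ^ 2 := by nlinarith
      calc (2 : ℝ) ^ n = X * (X⁻¹ * 2 ^ n) := by field_simp
        _ ≤ X * (3 * X ^ 4 * X ^ 3600) := by gcongr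
        _ = 3 * X ^ 3605 := by ring
        _ ≤ X ^ 2 * X ^ 3605 := by gcongr
        _ = X ^ 3607 := by ring
    have h4 : (n : ℝ) * Real.log 2 ≤ 3607 * Real.log X := by
      have := Real.log_le_log (by positivity) h3
      rw [Real.log_pow, Real.log_pow] at this
      exact_mod_cast this
    have h5 := Real.log_two_gt_d9
    have h6 := H.log_pos
    have h7 : (n : ℝ) * 0.6931471803 ≤ 3607 * Real.log X := by
      refine le_trans ?_ h4
      gcongr
    nlinarith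

end Pool.Agent.TH339.KE
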