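import Pool.Agent.TH339.KE.Basic

/-!
# Escape
-/

set_option autoImplicit false

open Polynomial Filter Topology Finset

namespace Pool.Agent.TH339.KE

/-- Lower bound far away. -/
lemma norm_f_ge (N : ℕ) (hN : 2 ≤ N) (x : Fin (N + 1) → ℂ) (X : ℝ) (hX : 2 ≤ X) (hNX : (N : ℝ) ≤ X)
    (hM : ∀ k, ‖x k‖ ≤ X ^ 2) (hb : X⁻¹ ≤ ‖x (Fin.last N)‖) (z : ℂ) (hz : X ^ 6 ≤ ‖z‖) :
    ‖z‖ ^ 2 / (2 * X) ≤ ‖f N x z‖ := by
  have hNR : (2 : ℝ) ≤ N := by exact_mod_cast hN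
  have hX0 : 0 < X := by linarith
  have hX6 : (64 : ℝ) ≤ X ^ 6 := by
    calc (64 : ℝ) = 2 ^ 6 := by norm_num
      _ ≤ X ^ 6 := by gcongr
  have hz1 : 1 ≤ ‖z‖ := by linarith
  have hz0 : 0 < ‖z‖ := by linarith
  -- split off the top term
  have h1 : f N x z = (∑ k ∈ Finset.univ.erase (Fin.last N), (b N k : ℂ) * x k * z ^ (k : ℕ)) +
      x (Fin.last N) * z ^ N := by
    unfold f
    rw [← Finset.sum_erase_add _ _ (Finset.mem_univ (Fin.last N))]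
    simp [b_top]
  have h2 : ‖∑ k ∈ Finset.univ.erase (Fin.last N), (b N k : ℂ) * x k * z ^ (k : ℕ)‖ ≤
      X ^ 2 * ∑ k ∈ Finset.range N, b N k * ‖z‖ ^ k := by
    refine (norm_sum_le _ _).trans ?_
    have e : ∑ k ∈ Finset.range N, b N k * ‖z‖ ^ k =
        ∑ k ∈ Finset.univ.erase (Fin.last N), b N k * ‖z‖ ^ (k : ℕ) := by
      have e1 : ∑ k ∈ Finset.range (N + 1), b N k * ‖z‖ ^ k =
          ∑ k : Fin (N + 1), b N k * ‖z‖ ^ (k : ℕ) :=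
        (Fin.sum_univ_eq_sum_range (fun k => b N k * ‖z‖ ^ k) (N + 1)).symm
      rw [Finset.sum_range_succ, ← Finset.sum_erase_add _ _ (Finset.mem_univ (Fin.last N))] at e1
      simp only [Fin.val_last] at e1
      linarith
    rw [e, Finset.mul_sum]
    refine Finset.sum_le_sum fun k _ => ?_
    rw [norm_mul, norm_mul, norm_pow, Complex.norm_real, Real.norm_eq_abs,
      abs_of_nonneg (b_nonneg N k)]
    have := hM k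
    have h2 : b N k * ‖x k‖ * ‖z‖ ^ (k : ℕ) = ‖x k‖ * (b N k * ‖z‖ ^ (k : ℕ)) := by ring
    rw [h2]
    have h3 : 0 ≤ b N k * ‖z‖ ^ (k : ℕ) := mul_nonneg (b_nonneg N k) (by positivity)
    gcongr
  have h3 : (∑ k ∈ Finset.range N, b N k * ‖z‖ ^ k) ^ 2 ≤ N * (S2 N z - (‖z‖ ^ 2) ^ N) := by
    have := @sq_sum_le_card_mul_sum_sq ℕ ℝ _ _ _ _ (Finset.range N) (fun k => b N k * ‖z‖ ^ k)
    rw [Finset.card_range] at this
    refine this.trans (le_of_eq ?_)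
    rw [← sum_u2, Finset.sum_range_succ]
    have : u2 N z N = (‖z‖ ^ 2) ^ N := by simp [u2]
    rw [this, add_sub_cancel_right]
    congr 1
    exact Finset.sum_congr rfl fun k _ => (u2_eq N z k).symm
  -- `(1 + y)^N - y^N ≤ 2 N y^(N-1)`
  have h4 : S2 N z - (‖z‖ ^ 2) ^ N ≤ 2 * N * (‖z‖ ^ 2) ^ N / ‖z‖ ^ 2 := by
    unfold S2
    have hy : 0 < ‖z‖ ^ 2 := by positivity
    have hyN : (N : ℝ) / ‖z‖ ^ 2 ≤ 1 := by
      rw [div_le_one hy]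
      have : X ^ 6 ≤ ‖z‖ ^ 2 := hz.trans (by nlinarith)
      have h5 : X ≤ X ^ 6 := le_self_pow₀ (by linarith) (by norm_num)
      linarith
    have e : (1 + ‖z‖ ^ 2) ^ N = (‖z‖ ^ 2) ^ N * (1 + 1 / ‖z‖ ^ 2) ^ N := by
      rw [← mul_pow]; congr 1; field_simp; ring
    have h5 : (1 + 1 / ‖z‖ ^ 2) ^ N ≤ 1 + 2 * (N / ‖z‖ ^ 2) := by
      have h6 : (1 + 1 / ‖z‖ ^ 2) ^ N ≤ Real.exp (N / ‖z‖ ^ 2) := by
        calc (1 + 1 / ‖z‖ ^ 2) ^ N ≤ (Real.exp (1 / ‖z‖ ^ 2)) ^ N := by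
              gcongr
              have := Real.add_one_le_exp (1 / ‖z‖ ^ 2)
              linarith
          _ = Real.exp (N / ‖z‖ ^ 2) := by
              rw [← Real.exp_nat_mul]; congr 1; ring
      have h7 : Real.exp (N / ‖z‖ ^ 2) ≤ 1 + 2 * (N / ‖z‖ ^ 2) := by
        have hw0 : 0 ≤ (N : ℝ) / ‖z‖ ^ 2 := by positivity
        have h8 := Real.abs_exp_sub_one_le (x := (N : ℝ) / ‖z‖ ^ 2)
          (by rw [abs_of_nonneg hw0]; exact hyN)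
        rw [abs_of_nonneg hw0] at h8
        have := (abs_le.mp h8).2
        linarith
      exact h6.trans h7
    rw [e]
    have h6 : (‖z‖ ^ 2) ^ N * (1 + 1 / ‖z‖ ^ 2) ^ N ≤ (‖z‖ ^ 2) ^ N * (1 + 2 * (N / ‖z‖ ^ 2)) := by
      gcongr
    have h7 : (‖z‖ ^ 2) ^ N * (1 + 2 * (N / ‖z‖ ^ 2)) =
        (‖z‖ ^ 2) ^ N + 2 * N * (‖z‖ ^ 2) ^ N / ‖z‖ ^ 2 := by ring
    linarith
  have h5 : ∑ k ∈ Finset.range N, b N k * ‖z‖ ^ k ≤ 2 * N * ‖z‖ ^ N / ‖z‖ := by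
    refine le_of_sq_le_sq (h3.trans ?_) (by positivity)
    calc (N : ℝ) * (S2 N z - (‖z‖ ^ 2) ^ N) ≤ N * (2 * N * (‖z‖ ^ 2) ^ N / ‖z‖ ^ 2) := by gcongr
      _ = 2 * (N ^ 2 * (‖z‖ ^ N) ^ 2 / ‖z‖ ^ 2) := by rw [← pow_mul, ← pow_mul, mul_comm 2 N]; ring
      _ ≤ 4 * (N ^ 2 * (‖z‖ ^ N) ^ 2 / ‖z‖ ^ 2) := by
          have : 0 ≤ (N : ℝ) ^ 2 * (‖z‖ ^ N) ^ 2 / ‖z‖ ^ 2 := by positivity
          linarith
      _ = (2 * N * ‖z‖ ^ N / ‖z‖) ^ 2 := by ring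
  have h6 : X⁻¹ * ‖z‖ ^ N - X ^ 2 * (2 * N * ‖z‖ ^ N / ‖z‖) ≤ ‖f N x z‖ := by
    have h7 : ‖x (Fin.last N) * z ^ N‖ - ‖∑ k ∈ Finset.univ.erase (Fin.last N),
        (b N k : ℂ) * x k * z ^ (k : ℕ)‖ ≤ ‖f N x z‖ := by
      rw [h1]
      generalize (∑ k ∈ Finset.univ.erase (Fin.last N), (b N k : ℂ) * x k * z ^ (k : ℕ)) = A
      have := norm_sub_norm_le (x (Fin.last N) * z ^ N) (-A)
      rw [norm_neg, sub_neg_eq_add] at this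
      rw [add_comm]
      exact this
    have h8 : X⁻¹ * ‖z‖ ^ N ≤ ‖x (Fin.last N) * z ^ N‖ := by
      rw [norm_mul, norm_pow]; gcongr
    have h9 : X ^ 2 * ∑ k ∈ Finset.range N, b N k * ‖z‖ ^ k ≤ X ^ 2 * (2 * N * ‖z‖ ^ N / ‖z‖) := by
      gcongr
    linarith
  refine le_trans ?_ h6
  have h7 : X ^ 2 * (2 * N * ‖z‖ ^ N / ‖z‖) ≤ X⁻¹ * ‖z‖ ^ N / 2 := by
    have h8 : X ^ 2 * (2 * N * ‖z‖ ^ N / ‖z‖) = (2 * X ^ 2 * N / ‖z‖) * ‖z‖ ^ N := by ring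
    have h9 : X⁻¹ * ‖z‖ ^ N / 2 = (X⁻¹ / 2) * ‖z‖ ^ N := by ring
    rw [h8, h9]
    refine mul_le_mul_of_nonneg_right ?_ (by positivity)
    rw [div_le_iff₀ hz0]
    have h10 : 2 * X ^ 2 * N ≤ 2 * X ^ 3 := by
      calc 2 * X ^ 2 * N ≤ 2 * X ^ 2 * X := by gcongr
        _ = _ := by ring
    have h11 : 2 * X ^ 3 ≤ X⁻¹ / 2 * X ^ 6 := by
      have : X⁻¹ / 2 * X ^ 6 = X ^ 5 / 2 := by field_simp
      rw [this]
      have h12 : (4 : ℝ) ≤ X ^ 2 := by nlinarith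
      have h13 : X ^ 3 * 4 ≤ X ^ 3 * X ^ 2 := by gcongr
      have h14 : X ^ 3 * X ^ 2 = X ^ 5 := by ring
      linarith
    calc 2 * X ^ 2 * N ≤ X⁻¹ / 2 * X ^ 6 := h10.trans h11
      _ ≤ X⁻¹ / 2 * ‖z‖ := by gcongr
  have h8 : X⁻¹ * ‖z‖ ^ 2 ≤ X⁻¹ * ‖z‖ ^ N := by
    gcongr
  have h9 : ‖z‖ ^ 2 / (2 * X) = X⁻¹ * ‖z‖ ^ 2 / 2 := by field_simp
  rw [h9]
  linarith

lemma norm_f_ge_two (N : ℕ) (hN : 2 ≤ N) (x : Fin (N + 1) → ℂ) (X : ℝ) (hX : 2 ≤ X)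
    (hNX : (N : ℝ) ≤ X) (hM : ∀ k, ‖x k‖ ≤ X ^ 2) (hb : X⁻¹ ≤ ‖x (Fin.last N)‖) (z : ℂ)
    (hz : X ^ 6 ≤ ‖z‖) : 2 * ‖z‖ ≤ ‖f N x z‖ := by
  refine le_trans ?_ (norm_f_ge N hN x X hX hNX hM hb z hz)
  have hX0 : 0 < X := by linarith
  rw [le_div_iff₀ (by positivity)]
  have h1 : 4 * X ≤ X ^ 6 := by
    have : (4 : ℝ) ≤ X ^ 5 := by
      calc (4 : ℝ) ≤ 2 ^ 5 := by norm_num
        _ ≤ X ^ 5 := by gcongr
    calc 4 * X ≤ X ^ 5 * X := by gcongr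
      _ = X ^ 6 := by ring
  have h2 : 0 ≤ ‖z‖ := norm_nonneg z
  nlinarith

/-- Escape of the points far away. -/
lemma escape (N : ℕ) (hN : 2 ≤ N) (x : Fin (N + 1) → ℂ) (X : ℝ) (hX : 2 ≤ X)
    (hNX : (N : ℝ) ≤ X) (hM : ∀ k, ‖x k‖ ≤ X ^ 2) (hb : X⁻¹ ≤ ‖x (Fin.last N)‖) (z : ℂ)
    (hz : ∃ j : ℕ, X ^ 6 ≤ ‖(f N x)^[j] z‖) :
    Tendsto (fun k : ℕ => ‖(f N x)^[k] z‖) atTop atTop := by
  obtain ⟨j, hj⟩ := hz
  have hX0 : 0 < X := by linarith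
  have hX6 : (1 : ℝ) ≤ X ^ 6 := one_le_pow₀ (by linarith)
  have key : ∀ i : ℕ, 2 ^ i * X ^ 6 ≤ ‖(f N x)^[i + j] z‖ := by
    intro i
    induction i with
    | zero => simpa using hj
    | succ i ih =>
      have h1 : X ^ 6 ≤ ‖(f N x)^[i + j] z‖ := by
        refine le_trans ?_ ih
        have : (1 : ℝ) ≤ 2 ^ i := one_le_pow₀ (by norm_num)
        nlinarith
      have h2 := norm_f_ge_two N hN x X hX hNX hM hb _ h1
      have e : i + 1 + j = (i + j) + 1 := by ring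
      rw [e, Function.iterate_succ_apply', pow_succ]
      linarith
  rw [← tendsto_add_atTop_iff_nat j]
  refine tendsto_atTop_mono (fun i => (?_ : (2 : ℝ) ^ i ≤ ‖(f N x)^[i + j] z‖)) ?_
  · refine le_trans ?_ (key i)
    have : (0 : ℝ) ≤ 2 ^ i := by positivity
    nlinarith
  · exact tendsto_pow_atTop_atTop_of_one_lt (by norm_num)

/-! ### Derivatives -/

lemma differentiable_f (N : ℕ) (x : Fin (N + 1) → ℂ) : Differentiable ℂ (f N x) := by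
  unfold f
  fun_prop

lemma differentiable_h (N : ℕ) (x : Fin (N + 1) → ℂ) : Differentiable ℂ (h N x) :=
  differentiable_f N _

lemma deriv_f (N : ℕ) (x : Fin (N + 1) → ℂ) (z : ℂ) :
    deriv (f N x) z = (derivative (P N x)).eval z := by
  have : f N x = fun w => (P N x).eval w := by funext w; rw [eval_P]
  rw [this, Polynomial.deriv]

lemma deriv_f_eq (N : ℕ) (x : Fin (N + 1) → ℂ) (z : ℂ) : deriv (f N x) z = deriv (h N x) z := by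
  have : f N x = fun w => x 0 + h N x w := by funext w; rw [f_eq]
  rw [this, deriv_const_add]

lemma S2_near (N : ℕ) (z w : ℂ) (δ : ℝ) (hδ0 : 0 ≤ δ) (hδ : δ ≤ 1) (hw : ‖w - z‖ ≤ δ) :
    S2 N w ≤ Real.exp (2 * δ * N) * S2 N z := by
  unfold S2
  have h1 : ‖w‖ ≤ ‖z‖ + δ := by
    have := norm_sub_norm_le w z
    linarith
  have h2 : 1 + ‖w‖ ^ 2 ≤ Real.exp (2 * δ) * (1 + ‖z‖ ^ 2) := by
    have h3 : ‖w‖ ^ 2 ≤ (‖z‖ + δ) ^ 2 := by gcongr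
    have h4 : 1 + 2 * δ ≤ Real.exp (2 * δ) := by
      have := Real.add_one_le_exp (2 * δ)
      linarith
    have h5 : 1 + (‖z‖ + δ) ^ 2 ≤ (1 + 2 * δ) * (1 + ‖z‖ ^ 2) := by
      nlinarith [sq_nonneg (‖z‖ - 1), mul_nonneg hδ0 (sq_nonneg (‖z‖ - 1)), norm_nonneg z,
        mul_nonneg hδ0 hδ0]
    have h6 : (1 + 2 * δ) * (1 + ‖z‖ ^ 2) ≤ Real.exp (2 * δ) * (1 + ‖z‖ ^ 2) := by gcongr
    linarith
  calc (1 + ‖w‖ ^ 2) ^ N ≤ (Real.exp (2 * δ) * (1 + ‖z‖ ^ 2)) ^ N := by gcongr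
    _ = _ := by rw [mul_pow, ← Real.exp_nat_mul]; ring_nf

lemma sqrt_S2_near (N : ℕ) (z w : ℂ) (δ : ℝ) (hδ0 : 0 ≤ δ) (hδ : δ * N ≤ 1) (hN : 1 ≤ N)
    (hw : ‖w - z‖ ≤ δ) : √(S2 N w) ≤ 3 * √(S2 N z) := by
  have hNR : (1 : ℝ) ≤ N := by exact_mod_cast hN
  have hδ1 : δ ≤ 1 := by nlinarith
  have h1 := S2_near N z w δ hδ0 hδ1 hw
  have h2 : Real.exp (2 * δ * N) ≤ 9 := by
    have h3 : Real.exp (2 * δ * N) ≤ Real.exp 2 := Real.exp_le_exp.mpr (by nlinarith)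
    have h4 : Real.exp 2 = Real.exp 1 * Real.exp 1 := by rw [← Real.exp_add]; norm_num
    have h5 := Real.exp_one_lt_d9
    have h6 := Real.exp_pos 1
    nlinarith
  calc √(S2 N w) ≤ √(9 * S2 N z) := by
        apply Real.sqrt_le_sqrt
        have := S2_pos N z
        nlinarith
    _ = 3 * √(S2 N z) := by
        rw [Real.sqrt_mul (by norm_num)]
        congr 1
        rw [show (9 : ℝ) = 3 ^ 2 by norm_num, Real.sqrt_sq (by norm_num)]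

/-- bound for `h` -/
lemma norm_h_le (N : ℕ) (hN : 2 ≤ N) (x : Fin (N + 1) → ℂ) (X : ℝ) (hX : 2 ≤ X)
    (hNX : (N : ℝ) ≤ X) (hM : ∀ k, k ≠ 0 → ‖x k‖ ≤ X ^ 2) (z : ℂ) :
    ‖h N x z‖ ≤ X ^ 3 * √(S2 N z) := by
  have hNR : (2 : ℝ) ≤ N := by exact_mod_cast hN
  have h1 : ‖h N x z‖ ≤ X ^ 2 * √((N : ℝ) + 1) * √(S2 N z) := by
    unfold h
    refine norm_f_le N _ (X ^ 2) (fun k => ?_) z
    by_cases hk : k = 0
    · subst hk; rw [Function.update_self, norm_zero]; positivity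
    · rw [Function.update_of_ne hk]; exact hM k hk
  refine h1.trans ?_
  have h2 : √((N : ℝ) + 1) ≤ X := by
    rw [Real.sqrt_le_left (by linarith)]
    nlinarith
  calc X ^ 2 * √((N : ℝ) + 1) * √(S2 N z) ≤ X ^ 2 * X * √(S2 N z) := by gcongr
    _ = _ := by ring

lemma norm_deriv_h_le (N : ℕ) (hN : 2 ≤ N) (x : Fin (N + 1) → ℂ) (X : ℝ) (hX : 2 ≤ X)
    (hNX : (N : ℝ) ≤ X) (hM : ∀ k, k ≠ 0 → ‖x k‖ ≤ X ^ 2) (z : ℂ) :
    ‖deriv (h N x) z‖ ≤ 3 * X ^ 4 * √(S2 N z) := by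
  have hNR : (2 : ℝ) ≤ N := by exact_mod_cast hN
  have hN0 : (0 : ℝ) < (N : ℝ)⁻¹ := by positivity
  have h1 : ∀ w ∈ Metric.sphere z (N : ℝ)⁻¹, ‖h N x w‖ ≤ 3 * X ^ 3 * √(S2 N z) := by
    intro w hw
    rw [mem_sphere_iff_norm] at hw
    refine (norm_h_le N hN x X hX hNX hM w).trans ?_
    have := sqrt_S2_near N z w (N : ℝ)⁻¹ hN0.le
      (by rw [inv_mul_cancel₀ (by positivity)]) (by omega) hw.le
    calc X ^ 3 * √(S2 N w) ≤ X ^ 3 * (3 * √(S2 N z)) := by gcongr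
      _ = _ := by ring
  have h2 := Complex.norm_deriv_le_of_forall_mem_sphere_norm_le hN0
    (differentiable_h N x).diffContOnCl h1
  refine h2.trans ?_
  rw [div_inv_eq_mul]
  calc 3 * X ^ 3 * √(S2 N z) * N ≤ 3 * X ^ 3 * √(S2 N z) * X := by gcongr
    _ = _ := by ring

lemma norm_deriv2_h_le (N : ℕ) (hN : 2 ≤ N) (x : Fin (N + 1) → ℂ) (X : ℝ) (hX : 2 ≤ X)
    (hNX : (N : ℝ) ≤ X) (hM : ∀ k, k ≠ 0 → ‖x k‖ ≤ X ^ 2) (z : ℂ) :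
    ‖deriv (deriv (h N x)) z‖ ≤ 9 * X ^ 5 * √(S2 N z) := by
  have hNR : (2 : ℝ) ≤ N := by exact_mod_cast hN
  have hN0 : (0 : ℝ) < (N : ℝ)⁻¹ := by positivity
  have h1 : ∀ w ∈ Metric.sphere z (N : ℝ)⁻¹, ‖deriv (h N x) w‖ ≤ 9 * X ^ 4 * √(S2 N z) := by
    intro w hw
    rw [mem_sphere_iff_norm] at hw
    refine (norm_deriv_h_le N hN x X hX hNX hM w).trans ?_
    have := sqrt_S2_near N z w (N : ℝ)⁻¹ hN0.le
      (by rw [inv_mul_cancel₀ (by positivity)]) (by omega) hw.le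
    calc 3 * X ^ 4 * √(S2 N w) ≤ 3 * X ^ 4 * (3 * √(S2 N z)) := by gcongr
      _ = _ := by ring
  have hd : Differentiable ℂ (deriv (h N x)) := by
    have := (differentiable_h N x).contDiff (n := 2)
    exact (this.differentiable_deriv_two)
  have h2 := Complex.norm_deriv_le_of_forall_mem_sphere_norm_le hN0 hd.diffContOnCl h1
  refine h2.trans ?_
  rw [div_inv_eq_mul]
  calc 9 * X ^ 4 * √(S2 N z) * N ≤ 9 * X ^ 4 * √(S2 N z) * X := by gcongr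
    _ = _ := by ring

end Pool.Agent.TH339.KE
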