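import Pool.Agent.TH339.KE.PrM

/-!
# Main theorem
-/

set_option autoImplicit false

open Polynomial Filter Topology Finset MeasureTheory
open scoped ENNReal

namespace Pool.Agent.TH339.KE

variable {N : ℕ} {μ : Fin (N + 1) → Measure ℂ} {D X r : ℝ}

lemma pi_nn : (NNReal.pi : ℝ≥0∞) = ENNReal.ofReal Real.pi := by
  rw [← NNReal.coe_real_pi, ENNReal.ofReal_coe_nnreal]

lemma vol_ball (c : ℂ) (a : ℝ) (ha : 0 ≤ a) :
    volume (Metric.closedBall c a) = ENNReal.ofReal (Real.pi * a ^ 2) := by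
  rw [Complex.volume_closedBall, ← ENNReal.ofReal_pow ha, pi_nn, ← ENNReal.ofReal_mul (by positivity),
    mul_comm]

lemma isClosed_Good (N : ℕ) (X : ℝ) : IsClosed {x : Fin (N + 1) → ℂ | Good N X x} := by
  have h1 : IsClosed {x : Fin (N + 1) → ℂ | ∀ k, ‖x k‖ ≤ X ^ 2} := by
    have : {x : Fin (N + 1) → ℂ | ∀ k, ‖x k‖ ≤ X ^ 2} = ⋂ k, {x | ‖x k‖ ≤ X ^ 2} := by
      ext x; simp
    rw [this]
    exact isClosed_iInter fun k => isClosed_le (continuous_apply k).norm continuous_const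
  have h2 : IsClosed {x : Fin (N + 1) → ℂ | ∀ k : Fin (N + 1), (k : ℕ) = 1 → X⁻¹ ≤ ‖x k‖} := by
    have : {x : Fin (N + 1) → ℂ | ∀ k : Fin (N + 1), (k : ℕ) = 1 → X⁻¹ ≤ ‖x k‖} =
        ⋂ k : Fin (N + 1), ⋂ _ : (k : ℕ) = 1, {x | X⁻¹ ≤ ‖x k‖} := by
      ext x; simp
    rw [this]
    exact isClosed_iInter fun k => isClosed_iInter fun _ =>
      isClosed_le continuous_const (continuous_apply k).norm
  exact h1.inter (h2.inter (isClosed_le continuous_const (continuous_apply (Fin.last N)).norm))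

/-- the event that the orbit of a critical point near the origin stays small twice -/
def E1 (N : ℕ) (X r : ℝ) : Set (Fin (N + 1) → ℂ) :=
  {x | Good N X x ∧ ∃ c : ℂ, ‖c‖ ≤ r ∧ fd N x c = 0 ∧ ‖h N x (x 0 + h N x c)‖ ≤ 2 * X ^ 6}

lemma cont_fd_sub (N : ℕ) (r : ℝ) :
    Continuous fun p : (Fin (N + 1) → ℂ) × Metric.closedBall (0 : ℂ) r =>
      fd N p.1 (p.2 : ℂ) := by
  unfold fd
  fun_prop

lemma cont_h_sub (N : ℕ) (r : ℝ) :
    Continuous fun p : (Fin (N + 1) → ℂ) × Metric.closedBall (0 : ℂ) r =>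
      h N p.1 (p.2 : ℂ) := by
  have : ∀ (x : Fin (N + 1) → ℂ) (z : ℂ), h N x z = f N x z - x 0 := fun x z => by
    rw [f_eq]; ring
  simp only [this]
  unfold f
  fun_prop

lemma cont_hh_sub (N : ℕ) (r : ℝ) :
    Continuous fun p : (Fin (N + 1) → ℂ) × Metric.closedBall (0 : ℂ) r =>
      h N p.1 (p.1 0 + h N p.1 (p.2 : ℂ)) := by
  have h1 := cont_h_sub N r
  have : ∀ (x : Fin (N + 1) → ℂ) (z : ℂ), h N x z = f N x z - x 0 := fun x z => by
    rw [f_eq]; ring
  have h2 : Continuous fun p : (Fin (N + 1) → ℂ) × Metric.closedBall (0 : ℂ) r =>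
      f N p.1 (p.1 0 + h N p.1 (p.2 : ℂ)) := by
    unfold f
    fun_prop
  have h3 : Continuous fun p : (Fin (N + 1) → ℂ) × Metric.closedBall (0 : ℂ) r => p.1 0 := by
    fun_prop
  have h4 := h2.sub h3
  refine h4.congr fun p => ?_
  exact (this _ _).symm

lemma isClosed_E1 (N : ℕ) (X r : ℝ) : IsClosed (E1 N X r) := by
  have hcs : CompactSpace (Metric.closedBall (0 : ℂ) r) :=
    isCompact_iff_compactSpace.mp (isCompact_closedBall 0 r)
  set Q : Set ((Fin (N + 1) → ℂ) × Metric.closedBall (0 : ℂ) r) :=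
    {p | fd N p.1 (p.2 : ℂ) = 0 ∧ ‖h N p.1 (p.1 0 + h N p.1 (p.2 : ℂ))‖ ≤ 2 * X ^ 6} with hQ
  have hQc : IsClosed Q :=
    (isClosed_eq (cont_fd_sub N r) continuous_const).inter
      (isClosed_le (cont_hh_sub N r).norm continuous_const)
  have h1 : E1 N X r = {x | Good N X x} ∩ Prod.fst '' Q := by
    ext x
    constructor
    · rintro ⟨h1, c, h2, h3, h4⟩
      exact ⟨h1, (x, ⟨c, by rw [mem_closedBall_zero_iff]; exact h2⟩), ⟨h3, h4⟩, rfl⟩
    · rintro ⟨h1, ⟨y, c⟩, ⟨h3, h4⟩, rfl⟩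
      exact ⟨h1, c, mem_closedBall_zero_iff.mp c.2, h3, h4⟩
  rw [h1]
  exact (isClosed_Good N X).inter (isClosedMap_fst_of_compactSpace _ hQc)

lemma h_update_zero' (N : ℕ) (x : Fin (N + 1) → ℂ) (t : ℂ) :
    h N (Function.update x 0 t) = h N x := by
  funext z
  exact h_update_zero N x t z

lemma fd_update_zero (N : ℕ) (x : Fin (N + 1) → ℂ) (t z : ℂ) :
    fd N (Function.update x 0 t) z = fd N x z := by
  rw [← deriv_h_fd, ← deriv_h_fd, h_update_zero']

/-- the slices of `E1` -/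
lemma slice_E1 (H : SA N X r) (hμ : ∀ i, Dens D (μ i)) (x : Fin (N + 1) → ℂ) :
    μ 0 {t | Function.update x 0 t ∈ E1 N X r} ≤
      ENNReal.ofReal (D * (5204 * Real.log X)) *
        (ENNReal.ofReal (Real.pi * r ^ 2) + volume {z | (x, z) ∈ SS N X r}) := by
  have hN := H.hN
  have hX0 := H.X0
  by_cases hne : ∃ t, Function.update x 0 t ∈ E1 N X r
  swap
  · have : {t | Function.update x 0 t ∈ E1 N X r} = ∅ := by
      ext t
      simp only [Set.mem_ofPred_eq, Set.mem_empty_iff_false, iff_false]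
      exact fun ht => hne ⟨t, ht⟩
    rw [this, measure_empty]
    exact zero_le
  obtain ⟨t₀, ht₀, -⟩ := hne
  have hM : ∀ k, k ≠ 0 → ‖x k‖ ≤ X ^ 2 := fun k hk => by
    have := ht₀.1 k
    rwa [Function.update_of_ne hk] at this
  have h1 : ∀ k : Fin (N + 1), (k : ℕ) = 1 → X⁻¹ ≤ ‖x k‖ := fun k hk => by
    have := ht₀.2.1 k hk
    have hk0 : k ≠ 0 := fun h0 => by
      rw [h0] at hk
      simp at hk
    rwa [Function.update_of_ne hk0] at this
  have hl : X⁻¹ ≤ ‖x (Fin.last N)‖ := by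
    have := ht₀.2.2
    have hk0 : Fin.last N ≠ 0 := fun h0 => by
      have := congrArg Fin.val h0
      simp at this
      omega
    rwa [Function.update_of_ne hk0] at this
  have hG : Good N X (Function.update x 0 0) := by
    refine ⟨fun k => ?_, fun k hk => ?_, ?_⟩
    · by_cases hk : k = 0
      · subst hk; rw [Function.update_self, norm_zero]; positivity
      · rw [Function.update_of_ne hk]; exact hM k hk
    · have hk0 : k ≠ 0 := fun h0 => by
        rw [h0] at hk
        simp at hk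
      rw [Function.update_of_ne hk0]
      exact h1 k hk
    · have hk0 : Fin.last N ≠ 0 := fun h0 => by
        have := congrArg Fin.val h0
        simp at this
        omega
      rw [Function.update_of_ne hk0]
      exact hl
  obtain ⟨Z, hZ, hZc⟩ := card_crit H hM h1
  have hsub : {t | Function.update x 0 t ∈ E1 N X r} ⊆
      ⋃ c ∈ Z, {t | ‖h N x (t + h N x c)‖ ≤ 2 * X ^ 6} := by
    rintro t ⟨-, c, hc1, hc2, hc3⟩
    rw [fd_update_zero] at hc2
    rw [h_update_zero', Function.update_self] at hc3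
    exact Set.mem_iUnion₂.mpr ⟨c, hZ c hc1 hc2, hc3⟩
  have hone : ∀ c ∈ Z, μ 0 {t | ‖h N x (t + h N x c)‖ ≤ 2 * X ^ 6} ≤
      ENNReal.ofReal D * (ENNReal.ofReal (Real.pi * r ^ 2) + volume {z | (x, z) ∈ SS N X r}) := by
    intro c _
    refine (hμ 0 _).trans ?_
    gcongr
    have e1 : {t : ℂ | ‖h N x (t + h N x c)‖ ≤ 2 * X ^ 6} =
        (fun t => t + h N x c) ⁻¹' {v | ‖h N x v‖ ≤ 2 * X ^ 6} := rfl
    rw [e1, measure_preimage_add_right, ← vol_ball 0 r H.r0.le]
    refine (measure_mono ?_).trans (measure_union_le _ _)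
    intro v hv
    have hv' : ‖h N x v‖ ≤ 2 * X ^ 6 := hv
    by_cases hvr : ‖v‖ ≤ r
    · left; rw [mem_closedBall_zero_iff]; exact hvr
    · right
      push Not at hvr
      have := H.r0
      refine ⟨by show r / 2 ≤ ‖v‖; linarith, ?_, hv'⟩
      show ‖v‖ ≤ X ^ 6
      by_contra hcon
      push Not at hcon
      have h5 := hG.h_ge H v hcon.le
      rw [h_update_zero'] at h5
      linarith
  refine (measure_mono hsub).trans ((measure_biUnion_finset_le Z _).trans ?_)
  refine (Finset.sum_le_sum hone).trans ?_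
  rw [Finset.sum_const, nsmul_eq_mul, ← mul_assoc]
  gcongr
  rw [mul_comm D, ENNReal.ofReal_mul (by have := H.log_pos; linarith)]
  gcongr
  rw [← ENNReal.ofReal_natCast]
  exact ENNReal.ofReal_le_ofReal hZc

lemma prob_E1 [∀ i, IsProbabilityMeasure (μ i)] (H : SA N X r) (hD : 0 ≤ D) (hDN : D * N ≤ X)
    (hμ : ∀ i, Dens D (μ i)) :
    Measure.pi μ (E1 N X r) ≤
      ENNReal.ofReal (D * (5204 * Real.log X) * (Real.pi * r ^ 2 + (X ^ 60)⁻¹)) := by
  have hX0 := H.X0
  have hlog := H.log_pos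
  have hm : Measurable fun x : Fin (N + 1) → ℂ => volume {z | (x, z) ∈ SS N X r} :=
    measurable_measure_prodMk_left (isClosed_SS N X r).measurableSet
  have h1 := measure_le_of_slice (μ := μ) 0 _ (isClosed_E1 N X r).measurableSet _
    (slice_E1 H hμ)
  refine h1.trans ?_
  have hm2 : Measurable fun x : Fin (N + 1) → ℂ =>
      ENNReal.ofReal (Real.pi * r ^ 2) + volume {z | (x, z) ∈ SS N X r} := measurable_const.add hm
  rw [lintegral_const_mul _ hm2, lintegral_add_left measurable_const,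
    lintegral_const, measure_univ, mul_one,
    ENNReal.ofReal_mul (p := D * (5204 * Real.log X)) (by positivity),
    ENNReal.ofReal_add (p := Real.pi * r ^ 2) (by positivity) (by positivity)]
  gcongr
  exact area_SS H hD hDN hμ

/-- the event that there is a critical point with small critical value away from the origin -/
def E2 (N : ℕ) (X r : ℝ) : Set (Fin (N + 1) → ℂ) :=
  {x | ENNReal.ofReal (Real.pi * rho X ^ 2) ≤ volume {z | (x, z) ∈ AA N X r}}

lemma prob_E2 [∀ i, IsProbabilityMeasure (μ i)] (H : SA N X r) (hD : 0 ≤ D) (hDN : D * N ≤ X)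
    (hμ : ∀ i, Dens D (μ i)) :
    Measure.pi μ (E2 N X r) ≤ ENNReal.ofReal (4 * (X ^ 9)⁻¹) := by
  have hX0 := H.X0
  obtain ⟨hρ0, -⟩ := H.rho_facts
  have hm : Measurable fun x : Fin (N + 1) → ℂ => volume {z | (x, z) ∈ AA N X r} :=
    measurable_measure_prodMk_left (isClosed_AA N X r).measurableSet
  have hpos : 0 < Real.pi * rho X ^ 2 := by have := Real.pi_pos; positivity
  have h1 := meas_ge_le_lintegral_div (μ := Measure.pi μ)
    (f := fun x : Fin (N + 1) → ℂ => volume {z | (x, z) ∈ AA N X r}) hm.aemeasurable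
    (ε := ENNReal.ofReal (Real.pi * rho X ^ 2))
    (by rw [ne_eq, ENNReal.ofReal_eq_zero, not_le]; exact hpos) ENNReal.ofReal_ne_top
  refine h1.trans ?_
  calc (∫⁻ x, volume {z | (x, z) ∈ AA N X r} ∂Measure.pi μ) / ENNReal.ofReal (Real.pi * rho X ^ 2)
      ≤ ENNReal.ofReal (4 * Real.pi * (X ^ 57)⁻¹) / ENNReal.ofReal (Real.pi * rho X ^ 2) := by
        gcongr
        exact area_AA H hD hDN hμ
    _ = ENNReal.ofReal (4 * (X ^ 9)⁻¹) := by
        rw [← ENNReal.ofReal_div_of_pos hpos]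
        congr 1
        unfold rho
        have := Real.pi_pos
        field_simp

/-- If none of the exceptional events happens then all critical points escape. -/
lemma all_escape (H : SA N X r) {x : Fin (N + 1) → ℂ} (hx : Good N X x) (h1 : x ∉ E1 N X r)
    (h2 : x ∉ E2 N X r) (c : ℂ) (hc : (derivative (P N x)).eval c = 0) :
    Tendsto (fun k : ℕ => ‖(fun w => (P N x).eval w)^[k] c‖) atTop atTop := by
  have hX := H.hX
  have hX0 := H.X0
  have e : (fun w => (P N x).eval w) = f N x := by funext w; rw [eval_P]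
  rw [e]
  by_contra hcon
  have hbd : ∀ j : ℕ, ‖(f N x)^[j] c‖ < X ^ 6 := by
    intro j
    by_contra hj
    push Not at hj
    exact hcon (escape N H.hN x X H.hX H.hNX hx.1 hx.2.2 c ⟨j, hj⟩)
  have hfd : fd N x c = 0 := by rw [← deriv_f_fd, deriv_f]; exact hc
  have hhf : ∀ w, ‖f N x w‖ < X ^ 6 → ‖h N x w‖ ≤ 2 * X ^ 6 := by
    intro w hw
    rw [h_eq]
    have h3 := hx.1 0
    have h4 : X ^ 2 ≤ X ^ 6 := pow_le_pow_right₀ (by linarith) (by norm_num)
    calc ‖f N x w - x 0‖ ≤ ‖f N x w‖ + ‖x 0‖ := norm_sub_le _ _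
      _ ≤ 2 * X ^ 6 := by linarith
  have hb1 : ‖h N x c‖ ≤ 2 * X ^ 6 := hhf c (by have := hbd 1; simpa using this)
  have hb2 : ‖h N x (x 0 + h N x c)‖ ≤ 2 * X ^ 6 := by
    rw [← f_eq]
    refine hhf _ ?_
    have := hbd 2
    simpa using this
  rcases le_or_gt r ‖c‖ with hcr | hcr
  · apply h2
    have h3 := disc_of_crit H hx c (by rw [deriv_h_fd]; exact hfd) hcr hb1
    show ENNReal.ofReal (Real.pi * rho X ^ 2) ≤ volume {z | (x, z) ∈ AA N X r}
    rw [← vol_ball c (rho X) H.rho_facts.1.le]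
    exact measure_mono h3
  · exact h1 ⟨hx, c, hcr.le, hfd, hb2⟩

/-- the probability of bad coefficients -/
lemma prob_not_good [∀ i, IsProbabilityMeasure (μ i)] (H : SA N X r) {W : ℝ} (hD : 0 ≤ D)
    (hW : 0 ≤ W)
    (hμ : ∀ i, Dens D (μ i))
    (hμW : ∀ i, ∫⁻ w, ENNReal.ofReal (‖w‖ ^ 2) ∂(μ i) ≤ ENNReal.ofReal W) :
    Measure.pi μ {x | ¬ Good N X x} ≤
      ENNReal.ofReal ((N + 1) * (W / (X ^ 2) ^ 2) + 2 * (Real.pi * D * (X⁻¹) ^ 2)) := by
  have hX0 := H.X0
  have hN := H.hN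
  have hpp := Real.pi_pos
  have hsub : {x : Fin (N + 1) → ℂ | ¬ Good N X x} ⊆
      (⋃ k ∈ (Finset.univ : Finset (Fin (N + 1))), {x | X ^ 2 < ‖x k‖}) ∪
        ({x | ‖x ⟨1, by omega⟩‖ < X⁻¹} ∪ {x | ‖x (Fin.last N)‖ < X⁻¹}) := by
    intro x hx
    by_contra hcon
    simp only [Set.mem_union, Set.mem_iUnion, Set.mem_ofPred_eq, Finset.mem_univ, exists_prop,
      true_and, not_or, not_exists, not_lt] at hcon
    refine hx ⟨hcon.1, fun k hk => ?_, hcon.2.2⟩
    have : k = ⟨1, by omega⟩ := Fin.ext hk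
    rw [this]
    exact hcon.2.1
  have hsl : ∀ k : Fin (N + 1), Measure.pi μ {x | ‖x k‖ < X⁻¹} ≤
      ENNReal.ofReal (Real.pi * D * (X⁻¹) ^ 2) := by
    intro k
    have hm : MeasurableSet {x : Fin (N + 1) → ℂ | ‖x k‖ < X⁻¹} :=
      (isOpen_lt (continuous_apply k).norm continuous_const).measurableSet
    have h1 := measure_le_of_slice (μ := μ) k _ hm
      (fun _ => ENNReal.ofReal (Real.pi * D * (X⁻¹) ^ 2)) fun x => ?_
    · rwa [lintegral_const, measure_univ, mul_one] at h1
    · have h2 := small_ball (hμ k) hD 1 0 one_ne_zero X⁻¹ (by positivity)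
      rw [norm_one, one_pow, div_one] at h2
      refine (measure_mono ?_).trans h2
      intro t ht
      have ht' : ‖Function.update x k t k‖ < X⁻¹ := ht
      rw [Function.update_self] at ht'
      show ‖1 * t + 0‖ ≤ X⁻¹
      rw [one_mul, add_zero]
      exact ht'.le
  have hlg : ∀ k : Fin (N + 1), Measure.pi μ {x | X ^ 2 < ‖x k‖} ≤
      ENNReal.ofReal (W / (X ^ 2) ^ 2) := by
    intro k
    have hm : MeasurableSet {x : Fin (N + 1) → ℂ | X ^ 2 < ‖x k‖} :=
      (isOpen_lt continuous_const (continuous_apply k).norm).measurableSet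
    have h1 := measure_le_of_slice (μ := μ) k _ hm
      (fun _ => ENNReal.ofReal (W / (X ^ 2) ^ 2)) fun x => ?_
    · rwa [lintegral_const, measure_univ, mul_one] at h1
    · refine (measure_mono ?_).trans (large_le (hμW k) (X ^ 2) (by positivity))
      intro t ht
      have ht' : X ^ 2 < ‖Function.update x k t k‖ := ht
      rw [Function.update_self] at ht'
      exact ht'
  refine (measure_mono hsub).trans ((measure_union_le _ _).trans ?_)
  rw [ENNReal.ofReal_add (by positivity) (by positivity)]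
  refine add_le_add ?_ ?_
  · refine (measure_biUnion_finset_le _ _).trans ((Finset.sum_le_sum fun k _ => hlg k).trans ?_)
    rw [Finset.sum_const, Finset.card_univ, Fintype.card_fin, nsmul_eq_mul,
      ENNReal.ofReal_mul (by positivity)]
    gcongr
    rw [← ENNReal.ofReal_natCast]
    push_cast
    exact le_rfl
  · refine (measure_union_le _ _).trans ((add_le_add (hsl _) (hsl _)).trans ?_)
    rw [← ENNReal.ofReal_add (by positivity) (by positivity)]
    exact ENNReal.ofReal_le_ofReal (by linarith)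

/-- **Main theorem.** -/
theorem main (N : ℕ) (hN : 2 ≤ N) (μ : Fin (N + 1) → Measure ℂ) [∀ i, IsProbabilityMeasure (μ i)]
    (D W : ℝ) (hD : 1 ≤ D) (hW : 1 ≤ W) (hμ : ∀ i, Dens D (μ i))
    (hμW : ∀ i, ∫⁻ w, ENNReal.ofReal (‖w‖ ^ 2) ∂(μ i) ≤ ENNReal.ofReal W) :
    Measure.pi μ {x | ¬ ∀ c : ℂ, (derivative (P N x)).eval c = 0 →
      Tendsto (fun k : ℕ => ‖(fun w => (P N x).eval w)^[k] c‖) atTop atTop} ≤
      ENNReal.ofReal (2 * 10 ^ 7 * D * Real.log (N * D * W) ^ 2 / N) := by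
  have hNR : (2 : ℝ) ≤ N := by exact_mod_cast hN
  set X : ℝ := N * D * W with hXdef
  have hND : (N : ℝ) ≤ N * D := by nlinarith
  have hNDW : (N : ℝ) * D ≤ X := by rw [hXdef]; nlinarith
  have hNX : (N : ℝ) ≤ X := hND.trans hNDW
  have hX : 2 ≤ X := hNR.trans hNX
  have hX0 : 0 < X := by linarith
  have hlog : 0.69 < Real.log X := by
    have h1 := Real.log_two_gt_d9
    have h2 : Real.log 2 ≤ Real.log X := Real.log_le_log (by norm_num) hX
    linarith
  by_cases hbig : 800 * Real.log X < N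
  swap
  · -- trivial case
    push Not at hbig
    refine prob_le_one.trans ?_
    rw [← ENNReal.ofReal_one]
    apply ENNReal.ofReal_le_ofReal
    rw [le_div_iff₀ (by linarith), one_mul]
    calc (N : ℝ) ≤ 800 * Real.log X := hbig
      _ ≤ 2 * 10 ^ 7 * 1 * Real.log X ^ 2 := by nlinarith
      _ ≤ 2 * 10 ^ 7 * D * Real.log X ^ 2 := by gcongr
  · set r : ℝ := √(800 * Real.log X / N) with hr
    have hrpos : 0 < 800 * Real.log X / N := by positivity
    have hr2 : r ^ 2 = 800 * Real.log X / N := Real.sq_sqrt hrpos.le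
    have H : SA N X r := by
      refine ⟨hN, hX, hNX, Real.sqrt_pos.mpr hrpos, ?_, ?_⟩
      · rw [hr, Real.sqrt_le_iff, one_pow, div_le_one (by linarith)]
        exact ⟨by norm_num, hbig.le⟩
      · rw [hr2]; field_simp
    have hDN : D * N ≤ X := by linarith
    have hD0 : 0 ≤ D := by linarith
    have hW0 : 0 ≤ W := by linarith
    have hsub : {x | ¬ ∀ c : ℂ, (derivative (P N x)).eval c = 0 →
        Tendsto (fun k : ℕ => ‖(fun w => (P N x).eval w)^[k] c‖) atTop atTop} ⊆
        {x | ¬ Good N X x} ∪ (E1 N X r ∪ E2 N X r) := by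
      intro x hx
      by_contra hcon
      simp only [Set.mem_union, Set.mem_ofPred_eq, not_or, not_not] at hcon
      exact hx fun c hc => all_escape H hcon.1 hcon.2.1 hcon.2.2 c hc
    refine (measure_mono hsub).trans ((measure_union_le _ _).trans
      ((add_le_add (prob_not_good H hD0 hW0 hμ hμW) ((measure_union_le _ _).trans
        (add_le_add (prob_E1 H hD0 hDN hμ) (prob_E2 H hD0 hDN hμ)))).trans ?_))
    have hpp := Real.pi_pos
    have hpi : Real.pi ≤ 3.15 := by linarith [Real.pi_lt_d2]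
    have hlog0 : 0 < Real.log X := by linarith
    rw [← ENNReal.ofReal_add (by positivity) (by positivity),
      ← ENNReal.ofReal_add (by positivity) (by positivity)]
    apply ENNReal.ofReal_le_ofReal
    have hN0 : (0 : ℝ) < N := by linarith
    -- the small terms
    have t1 : ((N : ℝ) + 1) * (W / (X ^ 2) ^ 2) ≤ 1 / N := by
      rw [mul_div_assoc', div_le_div_iff₀ (by positivity) hN0]
      have h1 : (N : ℝ) * W ≤ X := by
        rw [hXdef]
        have : (N : ℝ) * W * 1 ≤ N * W * D := by gcongr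
        linarith
      have h2 : ((N : ℝ) + 1) * W * N ≤ 2 * (N * W) * (N * W) := by
        have h3 : (N : ℝ) * 1 ≤ N * W := by gcongr
        have h4 : (0 : ℝ) ≤ W * N := by positivity
        nlinarith
      have h3 : 2 * ((N : ℝ) * W) * (N * W) ≤ 2 * X * X := by
        have : 0 ≤ (N : ℝ) * W := by positivity
        gcongr
      have h4 : 2 * X * X ≤ (X ^ 2) ^ 2 := by
        have : (2 : ℝ) ≤ X ^ 2 := by nlinarith
        calc 2 * X * X = 2 * X ^ 2 := by ring
          _ ≤ X ^ 2 * X ^ 2 := by gcongr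
          _ = _ := by ring
      linarith
    have t2 : Real.pi * D * (X⁻¹) ^ 2 ≤ 1.575 / N := by
      rw [inv_pow, ← div_eq_mul_inv, div_le_div_iff₀ (by positivity) hN0]
      calc Real.pi * D * N ≤ 3.15 * X := by
            calc Real.pi * D * N = Real.pi * (D * N) := by ring
              _ ≤ _ := by gcongr
        _ = 1.575 * (2 * X) := by ring
        _ ≤ 1.575 * (X * X) := by gcongr
        _ = 1.575 * X ^ 2 := by ring
    have hXinv : X⁻¹ ≤ 1 / N := by rw [← one_div]; gcongr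
    have t3 : 4 * (X ^ 9)⁻¹ ≤ 1 / N := by
      refine le_trans ?_ hXinv
      have h1 : (4 : ℝ) ≤ X ^ 8 := by
        calc (4 : ℝ) ≤ 2 ^ 8 := by norm_num
          _ ≤ X ^ 8 := by gcongr
      calc 4 * (X ^ 9)⁻¹ ≤ X ^ 8 * (X ^ 9)⁻¹ := by gcongr
        _ = X⁻¹ := by field_simp
    have t4 : D * (5204 * Real.log X) * (X ^ 60)⁻¹ ≤ 1 / N := by
      refine le_trans ?_ hXinv
      have h1 : D ≤ X := by
        have : D * 1 ≤ D * N := by gcongr; linarith
        linarith
      have h2 : Real.log X ≤ X := Real.log_le_self hX0.le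
      have h3 : (5204 : ℝ) ≤ X ^ 13 := by
        calc (5204 : ℝ) ≤ 2 ^ 13 := by norm_num
          _ ≤ X ^ 13 := by gcongr
      calc D * (5204 * Real.log X) * (X ^ 60)⁻¹ ≤ X * (X ^ 13 * X) * (X ^ 60)⁻¹ := by gcongr
        _ = (X ^ 45)⁻¹ := by field_simp
        _ ≤ X⁻¹ := by
            gcongr
            exact le_self_pow₀ (by linarith) (by norm_num)
    have t5 : D * (5204 * Real.log X) * (Real.pi * r ^ 2) ≤
        13114080 * (D * Real.log X ^ 2 / N) := by
      rw [hr2]
      calc D * (5204 * Real.log X) * (Real.pi * (800 * Real.log X / N))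
          = (5204 * 800) * Real.pi * (D * Real.log X ^ 2 / N) := by ring
        _ ≤ (5204 * 800) * 3.15 * (D * Real.log X ^ 2 / N) := by gcongr
        _ = _ := by ring
    have t6 : 1 / (N : ℝ) ≤ 2.2 * (D * Real.log X ^ 2 / N) := by
      rw [mul_div_assoc']
      gcongr
      have : 0.476 ≤ Real.log X ^ 2 := by nlinarith
      nlinarith
    have e1 : D * (5204 * Real.log X) * (Real.pi * r ^ 2 + (X ^ 60)⁻¹) =
        D * (5204 * Real.log X) * (Real.pi * r ^ 2) + D * (5204 * Real.log X) * (X ^ 60)⁻¹ := by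
      ring
    have e2 : 2 * 10 ^ 7 * D * Real.log X ^ 2 / N = 2 * 10 ^ 7 * (D * Real.log X ^ 2 / N) := by ring
    have e3 : (1.575 : ℝ) / N = 1.575 * (1 / N) := by ring
    rw [e1, e2]
    rw [e3] at t2
    have hpos : 0 < D * Real.log X ^ 2 / N := by positivity
    linarith

end Pool.Agent.TH339.KE
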