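import Pool.Agent.TH339.KE.Det

/-!
# Probabilistic part
-/

set_option autoImplicit false

open Polynomial Filter Topology Finset MeasureTheory
open scoped ENNReal

namespace Pool.Agent.TH339.KE

variable {N : ℕ} {μ : Fin (N + 1) → Measure ℂ} {D X r : ℝ}

/-- Tonelli -/
lemma tonelli_le [∀ i, IsProbabilityMeasure (μ i)] (E : Set ((Fin (N + 1) → ℂ) × ℂ))
    (hE : MeasurableSet E) (K : Set ℂ) (hK : MeasurableSet K) (p : ℝ≥0∞)
    (hEK : ∀ q ∈ E, q.2 ∈ K) (hp : ∀ z ∈ K, Measure.pi μ {x | (x, z) ∈ E} ≤ p) :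
    ∫⁻ x, volume {z | (x, z) ∈ E} ∂(Measure.pi μ) ≤ p * volume K := by
  have h1 : ∫⁻ x, volume {z | (x, z) ∈ E} ∂(Measure.pi μ) =
      ((Measure.pi μ).prod volume) E := by
    rw [Measure.prod_apply hE]
    rfl
  rw [h1, Measure.prod_apply_symm hE, ← setLIntegral_const, ← lintegral_indicator hK]
  refine lintegral_mono fun z => ?_
  by_cases hz : z ∈ K
  · rw [Set.indicator_of_mem hz]
    exact hp z hz
  · have : (fun x : Fin (N + 1) → ℂ => (x, z)) ⁻¹' E = ∅ := by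
      ext x
      simp only [Set.mem_preimage, Set.mem_empty_iff_false, iff_false]
      exact fun hx => hz (hEK _ hx)
    rw [this, measure_empty]
    exact zero_le

lemma continuous_S2 (N : ℕ) : Continuous (S2 N) := by
  unfold S2
  fun_prop

lemma isClosed_AA (N : ℕ) (X r : ℝ) : IsClosed (AA N X r) := by
  have h1 : Continuous fun p : (Fin (N + 1) → ℂ) × ℂ => S2 N p.2 :=
    (continuous_S2 N).comp continuous_snd
  have h2 := (continuous_h N).norm
  have h3 := (continuous_fd N).norm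
  have h4 : Continuous fun p : (Fin (N + 1) → ℂ) × ℂ => ‖p.2‖ := continuous_snd.norm
  refine (isClosed_le continuous_const h4).inter ((isClosed_le h4 continuous_const).inter
    ((isClosed_le h2 ?_).inter (isClosed_le h3 ?_)))
  · exact continuous_const.mul h1.sqrt
  · exact continuous_const.mul h1.sqrt

/-- the probability that `h` and `h'` are both small at a point -/
lemma prob_AA [∀ i, IsProbabilityMeasure (μ i)] (H : SA N X r) (hD : 0 ≤ D) (hDN : D * N ≤ X)
    (hμ : ∀ i, Dens D (μ i)) (z : ℂ) :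
    Measure.pi μ {x | (x, z) ∈ AA N X r} ≤ ENNReal.ofReal ((X ^ 69)⁻¹) := by
  have hX := H.hX
  have hX0 := H.X0
  have hN := H.hN
  have hNR : (2 : ℝ) ≤ N := by exact_mod_cast hN
  obtain ⟨hρ0, hρN, hρr, hρ1⟩ := H.rho_facts
  by_cases hz : r / 2 ≤ ‖z‖ ∧ ‖z‖ ≤ 2 * X ^ 6
  swap
  · have : {x : Fin (N + 1) → ℂ | (x, z) ∈ AA N X r} = ∅ := by
      ext x
      simp only [Set.mem_ofPred_eq, Set.mem_empty_iff_false, iff_false]
      exact fun hx => hz ⟨hx.1, hx.2.1⟩
    rw [this, measure_empty]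
    exact zero_le
  obtain ⟨hz1, hz2⟩ := hz
  have hS := H.S2_ge z hz1
  have hS0 := S2_pos N z
  have hX100 : (2 : ℝ) ≤ X ^ 100 := by
    calc (2 : ℝ) ≤ X := hX
      _ ≤ X ^ 100 := le_self_pow₀ (by linarith) (by norm_num)
  have hq : (X ^ 14)⁻¹ * N ≤ ‖z‖ ^ 2 := by
    have h1 : (r / 2) ^ 2 ≤ ‖z‖ ^ 2 := by have := H.r0; gcongr
    have h2 : (r / 2) ^ 2 = 200 * Real.log X / N := by
      rw [eq_div_iff (by linarith)]
      have := H.hr
      linarith
    have h3 : (X ^ 14)⁻¹ * N ≤ 1 / N := by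
      rw [le_div_iff₀ (by linarith)]
      have h4 : (X ^ 14)⁻¹ * N * N ≤ (X ^ 14)⁻¹ * X * X := by
        have := H.hNX
        gcongr
      have h5 : (X ^ 14)⁻¹ * X * X ≤ 1 := by
        have h6 : (X ^ 14)⁻¹ * X * X = (X ^ 12)⁻¹ := by field_simp
        rw [h6]
        exact inv_le_one_of_one_le₀ (one_le_pow₀ (by linarith))
      linarith
    have h4 : 1 / (N : ℝ) ≤ 200 * Real.log X / N := by
      have := H.log_pos
      gcongr
      linarith
    linarith
  have hq' : (X ^ 14)⁻¹ * ‖z‖ ^ 2 ≤ 1 := by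
    have h1 : ‖z‖ ^ 2 ≤ (2 * X ^ 6) ^ 2 := by gcongr
    have h2 : (2 * X ^ 6) ^ 2 ≤ X ^ 14 := by
      calc (2 * X ^ 6) ^ 2 ≤ (X * X ^ 6) ^ 2 := by gcongr
        _ = X ^ 14 := by ring
    rw [inv_mul_le_one₀ (by positivity)]
    linarith
  set s : ℝ := √(S2 N z) with hs
  have hs0 : 0 ≤ s := Real.sqrt_nonneg _
  have hss : s ^ 2 = S2 N z := Real.sq_sqrt hS0.le
  have h1 := prob_joint hD hμ hN z (hX100.trans hS) ((X ^ 14)⁻¹) (by positivity) hq hq'
    (28 * X ^ 5 * rho X ^ 2 * s) (27 * X ^ 5 * rho X * s) (by positivity) (by positivity)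
  refine ((measure_mono ?_).trans h1).trans (ENNReal.ofReal_le_ofReal ?_)
  · intro x hx
    exact ⟨hx.2.2.1, hx.2.2.2⟩
  · have hb : ‖z‖ * (27 * X ^ 5 * rho X * s) + N * (28 * X ^ 5 * rho X ^ 2 * s) ≤
        55 * X ^ 11 * rho X * s := by
      have e1 : ‖z‖ * (27 * X ^ 5 * rho X * s) ≤ 2 * X ^ 6 * (27 * X ^ 5 * rho X * s) := by gcongr
      have e2 : N * (28 * X ^ 5 * rho X ^ 2 * s) ≤ X * (28 * X ^ 5 * (1 * rho X) * s) := by
        have := H.hNX
        have : rho X ^ 2 ≤ 1 * rho X := by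
          rw [sq]; gcongr
        gcongr
      have e3 : X * (28 * X ^ 5 * (1 * rho X) * s) ≤ X ^ 11 * rho X * s := by
        have e4 : (28 : ℝ) ≤ X ^ 5 := by
          calc (28 : ℝ) ≤ 2 ^ 5 := by norm_num
            _ ≤ X ^ 5 := by gcongr
        calc X * (28 * X ^ 5 * (1 * rho X) * s) = 28 * (X ^ 6 * rho X * s) := by ring
          _ ≤ X ^ 5 * (X ^ 6 * rho X * s) := by gcongr
          _ = _ := by ring
      have e5 : 2 * X ^ 6 * (27 * X ^ 5 * rho X * s) = 54 * (X ^ 11 * rho X * s) := by ring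
      have e6 : 55 * X ^ 11 * rho X * s = 55 * (X ^ 11 * rho X * s) := by ring
      linarith
    have hpi : Real.pi ≤ 3.15 := by linarith [Real.pi_lt_d2]
    calc (2 * Real.pi * D * N) ^ 2 * (28 * X ^ 5 * rho X ^ 2 * s) ^ 2 *
          (‖z‖ * (27 * X ^ 5 * rho X * s) + N * (28 * X ^ 5 * rho X ^ 2 * s)) ^ 2 /
          ((X ^ 14)⁻¹ * S2 N z ^ 2)
        ≤ (2 * 3.15 * X) ^ 2 * (28 * X ^ 5 * rho X ^ 2 * s) ^ 2 *
          (55 * X ^ 11 * rho X * s) ^ 2 / ((X ^ 14)⁻¹ * S2 N z ^ 2) := by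
          have hpp := Real.pi_pos
          have e7 : 2 * Real.pi * D * N ≤ 2 * 3.15 * X := by
            calc 2 * Real.pi * D * N = 2 * Real.pi * (D * N) := by ring
              _ ≤ 2 * 3.15 * X := by gcongr
          gcongr
      _ = (2 * 3.15 * 28 * 55) ^ 2 * (X ^ 48 * rho X ^ 6) * ((s ^ 2) ^ 2 / S2 N z ^ 2) := by
          field_simp
      _ = (2 * 3.15 * 28 * 55) ^ 2 * (X ^ 48 * rho X ^ 6) := by
          rw [hss, div_self (by positivity), mul_one]
      _ ≤ X ^ 27 * (X ^ 48 * rho X ^ 6) := by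
          have e8 : ((2 * 3.15 * 28 * 55) ^ 2 : ℝ) ≤ 2 ^ 27 := by norm_num
          have e9 : (2 : ℝ) ^ 27 ≤ X ^ 27 := by gcongr
          gcongr
          exact e8.trans e9
      _ = (X ^ 69)⁻¹ := by
          unfold rho
          field_simp

/-- the expected area of the set where `h` and `h'` are small -/
lemma area_AA [∀ i, IsProbabilityMeasure (μ i)] (H : SA N X r) (hD : 0 ≤ D) (hDN : D * N ≤ X)
    (hμ : ∀ i, Dens D (μ i)) :
    ∫⁻ x, volume {z | (x, z) ∈ AA N X r} ∂(Measure.pi μ) ≤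
      ENNReal.ofReal (4 * Real.pi * (X ^ 57)⁻¹) := by
  have hX := H.hX
  have hX0 := H.X0
  have h1 := tonelli_le (μ := μ) (AA N X r) (isClosed_AA N X r).measurableSet
    (Metric.closedBall 0 (2 * X ^ 6)) measurableSet_closedBall (ENNReal.ofReal ((X ^ 69)⁻¹))
    (fun q hq => by rw [mem_closedBall_zero_iff]; exact hq.2.1)
    (fun z _ => prob_AA H hD hDN hμ z)
  refine h1.trans ?_
  rw [Complex.volume_closedBall, ← ENNReal.ofReal_pow (by positivity)]
  have h2 : (NNReal.pi : ℝ≥0∞) = ENNReal.ofReal Real.pi := by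
    rw [← NNReal.coe_real_pi, ENNReal.ofReal_coe_nnreal]
  rw [h2, ← ENNReal.ofReal_mul (by positivity), ← ENNReal.ofReal_mul (by positivity)]
  apply le_of_eq
  congr 1
  field_simp
  ring

/-- the set of the points away from the origin where `h` is small -/
def SS (N : ℕ) (X r : ℝ) : Set ((Fin (N + 1) → ℂ) × ℂ) :=
  {p | r / 2 ≤ ‖p.2‖ ∧ ‖p.2‖ ≤ X ^ 6 ∧ ‖h N p.1 p.2‖ ≤ 2 * X ^ 6}

lemma isClosed_SS (N : ℕ) (X r : ℝ) : IsClosed (SS N X r) := by
  have h2 := (continuous_h N).norm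
  have h4 : Continuous fun p : (Fin (N + 1) → ℂ) × ℂ => ‖p.2‖ := continuous_snd.norm
  exact (isClosed_le continuous_const h4).inter ((isClosed_le h4 continuous_const).inter
    (isClosed_le h2 continuous_const))

lemma area_SS [∀ i, IsProbabilityMeasure (μ i)] (H : SA N X r) (hD : 0 ≤ D) (hDN : D * N ≤ X)
    (hμ : ∀ i, Dens D (μ i)) :
    ∫⁻ x, volume {z | (x, z) ∈ SS N X r} ∂(Measure.pi μ) ≤ ENNReal.ofReal ((X ^ 60)⁻¹) := by
  have hX := H.hX
  have hX0 := H.X0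
  have hNR : (2 : ℝ) ≤ N := by exact_mod_cast H.hN
  have hpi : Real.pi ≤ 3.15 := by linarith [Real.pi_lt_d2]
  have hpp := Real.pi_pos
  have h1 := tonelli_le (μ := μ) (SS N X r) (isClosed_SS N X r).measurableSet
    {z : ℂ | r / 2 ≤ ‖z‖ ∧ ‖z‖ ≤ X ^ 6}
    ((isClosed_le continuous_const continuous_norm).inter
      (isClosed_le continuous_norm continuous_const)).measurableSet
    (ENNReal.ofReal ((X ^ 81)⁻¹)) (fun q hq => ⟨hq.1, hq.2.1⟩) (fun z hz => ?_)
  · refine h1.trans ?_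
    have h3 : volume {z : ℂ | r / 2 ≤ ‖z‖ ∧ ‖z‖ ≤ X ^ 6} ≤
        volume (Metric.closedBall (0 : ℂ) (X ^ 6)) := by
      refine measure_mono fun z hz => ?_
      rw [mem_closedBall_zero_iff]
      exact hz.2
    calc ENNReal.ofReal ((X ^ 81)⁻¹) * volume {z : ℂ | r / 2 ≤ ‖z‖ ∧ ‖z‖ ≤ X ^ 6}
        ≤ ENNReal.ofReal ((X ^ 81)⁻¹) * volume (Metric.closedBall (0 : ℂ) (X ^ 6)) := by gcongr
      _ ≤ ENNReal.ofReal ((X ^ 60)⁻¹) := by
          rw [Complex.volume_closedBall, ← ENNReal.ofReal_pow (by positivity)]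
          have h2 : (NNReal.pi : ℝ≥0∞) = ENNReal.ofReal Real.pi := by
            rw [← NNReal.coe_real_pi, ENNReal.ofReal_coe_nnreal]
          rw [h2, ← ENNReal.ofReal_mul (by positivity), ← ENNReal.ofReal_mul (by positivity)]
          apply ENNReal.ofReal_le_ofReal
          have h4 : Real.pi ≤ X ^ 2 := by nlinarith
          calc (X ^ 81)⁻¹ * ((X ^ 6) ^ 2 * Real.pi) ≤ (X ^ 81)⁻¹ * ((X ^ 6) ^ 2 * X ^ 2) := by gcongr
            _ = (X ^ 67)⁻¹ := by field_simp
            _ ≤ (X ^ 60)⁻¹ := by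
                gcongr
                · linarith
                · norm_num
  · have hS := H.S2_ge z hz.1
    have hX100 : (2 : ℝ) ≤ X ^ 100 := by
      calc (2 : ℝ) ≤ X := hX
        _ ≤ X ^ 100 := le_self_pow₀ (by linarith) (by norm_num)
    have h2 := prob_h hD hμ z (hX100.trans hS) (2 * X ^ 6) (by positivity)
    refine ((measure_mono ?_).trans h2).trans (ENNReal.ofReal_le_ofReal ?_)
    · intro x hx
      exact hx.2.2
    · calc 2 * Real.pi * D * N * (2 * X ^ 6) ^ 2 / S2 N z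
          ≤ 2 * 3.15 * X * (2 * X ^ 6) ^ 2 / X ^ 100 := by
            have e7 : 2 * Real.pi * D * N ≤ 2 * 3.15 * X := by
              calc 2 * Real.pi * D * N = 2 * Real.pi * (D * N) := by ring
                _ ≤ 2 * 3.15 * X := by gcongr
            gcongr
        _ = 25.2 * (X ^ 87)⁻¹ := by field_simp; norm_num
        _ ≤ X ^ 5 * (X ^ 87)⁻¹ := by
            gcongr
            calc (25.2 : ℝ) ≤ 2 ^ 5 := by norm_num
              _ ≤ X ^ 5 := by gcongr
        _ = (X ^ 82)⁻¹ := by field_simp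
        _ ≤ (X ^ 81)⁻¹ := by
            gcongr
            · linarith
            · norm_num

end Pool.Agent.TH339.KE
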