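import Mathlib

/-!
# Product measures: integrating one coordinate
-/

set_option autoImplicit false

open MeasureTheory
open scoped ENNReal

namespace Pool.Agent.TH339.KE

variable {ι : Type} [Fintype ι] [DecidableEq ι] {μ : ι → Measure ℂ}

/-- integrate one coordinate first -/
lemma lintegral_update [∀ i, IsProbabilityMeasure (μ i)] (k : ι) (g : (ι → ℂ) → ℝ≥0∞)
    (hg : Measurable g) :
    ∫⁻ x, g x ∂(Measure.pi μ) =
      ∫⁻ x, (∫⁻ t, g (Function.update x k t) ∂(μ k)) ∂(Measure.pi μ) := by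
  have hG : Measurable fun x : ι → ℂ => ∫⁻ t, g (Function.update x k t) ∂(μ k) := by
    have h1 : Measurable fun p : (ι → ℂ) × ℂ => g (Function.update p.1 k p.2) := by
      apply hg.comp
      rw [measurable_pi_iff]
      intro i
      by_cases hi : i = k
      · subst hi; simp only [Function.update_self]; exact measurable_snd
      · simp only [Function.update_of_ne hi]; exact (measurable_pi_apply i).comp measurable_fst
    exact h1.lintegral_prod_right'
  have x₀ : ι → ℂ := fun _ => 0
  rw [lintegral_eq_lmarginal_univ x₀, lintegral_eq_lmarginal_univ x₀,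
    lmarginal_erase' _ hg (Finset.mem_univ k), lmarginal_erase' _ hG (Finset.mem_univ k)]
  congr 1
  funext x
  simp only [Function.update_idem]
  rw [lintegral_const, measure_univ, mul_one]

/-- conditional bound for the probability -/
lemma measure_le_of_slice [∀ i, IsProbabilityMeasure (μ i)] (k : ι) (E : Set (ι → ℂ))
    (hE : MeasurableSet E) (g : (ι → ℂ) → ℝ≥0∞)
    (h : ∀ x, μ k {t | Function.update x k t ∈ E} ≤ g x) :
    Measure.pi μ E ≤ ∫⁻ x, g x ∂(Measure.pi μ) := by
  have h1 : Measure.pi μ E = ∫⁻ x, E.indicator (fun _ => (1 : ℝ≥0∞)) x ∂(Measure.pi μ) := by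
    rw [lintegral_indicator hE, setLIntegral_const, one_mul]
  rw [h1, lintegral_update k _ (measurable_const.indicator hE)]
  refine lintegral_mono fun x => (le_of_eq ?_).trans (h x)
  have h2 : (fun t => E.indicator (fun _ => (1 : ℝ≥0∞)) (Function.update x k t)) =
      {t | Function.update x k t ∈ E}.indicator (fun _ => (1 : ℝ≥0∞)) := by
    funext t
    rfl
  rw [h2, lintegral_indicator, setLIntegral_const, one_mul]
  exact measurableSet_preimage (measurable_update x) hE

/-- two conditions, the second of which does not depend on the coordinate `l` -/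
lemma measure_two_le [∀ i, IsProbabilityMeasure (μ i)] (k l : ι) (E F : Set (ι → ℂ))
    (hE : MeasurableSet E) (hF : MeasurableSet F) (p q : ℝ≥0∞)
    (hEp : ∀ x, μ l {t | Function.update x l t ∈ E} ≤ p)
    (hFl : ∀ x t, Function.update x l t ∈ F → x ∈ F)
    (hFq : ∀ x, μ k {t | Function.update x k t ∈ F} ≤ q) :
    Measure.pi μ (E ∩ F) ≤ p * q := by
  have h1 : Measure.pi μ (E ∩ F) ≤ ∫⁻ x, p * F.indicator (fun _ => (1 : ℝ≥0∞)) x ∂(Measure.pi μ) := by
    refine measure_le_of_slice l _ (hE.inter hF) _ fun x => ?_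
    by_cases hx : x ∈ F
    · rw [Set.indicator_of_mem hx, mul_one]
      exact (measure_mono fun t ht => ht.1).trans (hEp x)
    · have : {t | Function.update x l t ∈ E ∩ F} = ∅ := by
        ext t
        simp only [Set.mem_ofPred_eq, Set.mem_empty_iff_false, iff_false]
        exact fun ht => hx (hFl x t ht.2)
      rw [this, measure_empty]
      exact zero_le
  refine h1.trans ?_
  rw [lintegral_const_mul _ (measurable_const.indicator hF), lintegral_indicator hF,
    setLIntegral_const, one_mul]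
  gcongr
  have h2 := measure_le_of_slice k F hF (fun _ => q) hFq
  rwa [lintegral_const, measure_univ, mul_one] at h2

/-- The law of one coordinate has density at most `D`. -/
def Dens (D : ℝ) (ν : Measure ℂ) : Prop := ∀ B : Set ℂ, ν B ≤ ENNReal.ofReal D * volume B

/-- small ball -/
lemma small_ball {D : ℝ} {ν : Measure ℂ} (hν : Dens D ν) (hD : 0 ≤ D) (α c : ℂ) (hα : α ≠ 0)
    (a : ℝ) (ha : 0 ≤ a) :
    ν {t | ‖α * t + c‖ ≤ a} ≤ ENNReal.ofReal (Real.pi * D * a ^ 2 / ‖α‖ ^ 2) := by
  have hα0 : 0 < ‖α‖ := norm_pos_iff.mpr hα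
  have h1 : {t : ℂ | ‖α * t + c‖ ≤ a} ⊆ Metric.closedBall (-c / α) (a / ‖α‖) := by
    intro t ht
    rw [mem_closedBall_iff_norm, le_div_iff₀ hα0, ← norm_mul]
    have : (t - -c / α) * α = α * t + c := by field_simp; ring
    rw [this]
    exact ht
  calc ν {t | ‖α * t + c‖ ≤ a} ≤ ν (Metric.closedBall (-c / α) (a / ‖α‖)) := measure_mono h1
    _ ≤ ENNReal.ofReal D * volume (Metric.closedBall (-c / α) (a / ‖α‖)) := hν _
    _ = ENNReal.ofReal (Real.pi * D * a ^ 2 / ‖α‖ ^ 2) := by
        rw [Complex.volume_closedBall, ← ENNReal.ofReal_pow (by positivity)]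
        have h2 : (NNReal.pi : ℝ≥0∞) = ENNReal.ofReal Real.pi := by
          rw [← NNReal.coe_real_pi, ENNReal.ofReal_coe_nnreal]
        rw [h2, ← ENNReal.ofReal_mul (by positivity), ← ENNReal.ofReal_mul hD]
        congr 1
        field_simp

/-- Markov -/
lemma large_le {W : ℝ} {ν : Measure ℂ} (hν : ∫⁻ w, ENNReal.ofReal (‖w‖ ^ 2) ∂ν ≤ ENNReal.ofReal W)
    (M : ℝ) (hM : 0 < M) : ν {t | M < ‖t‖} ≤ ENNReal.ofReal (W / M ^ 2) := by
  have h1 : {t : ℂ | M < ‖t‖} ⊆ {t | ENNReal.ofReal (M ^ 2) ≤ ENNReal.ofReal (‖t‖ ^ 2)} := by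
    intro t ht
    simp only [Set.mem_ofPred_eq] at ht ⊢
    exact ENNReal.ofReal_le_ofReal (by gcongr)
  refine (measure_mono h1).trans ?_
  have h2 := meas_ge_le_lintegral_div (μ := ν) (f := fun t : ℂ => ENNReal.ofReal (‖t‖ ^ 2))
    (by fun_prop) (ε := ENNReal.ofReal (M ^ 2)) (by simpa using hM.ne') ENNReal.ofReal_ne_top
  refine h2.trans ?_
  rw [ENNReal.ofReal_div_of_pos (by positivity)]
  gcongr

end Pool.Agent.TH339.KE
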