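import Pool.Agent.TH339.KE.Esc
import Pool.Agent.TH339.KE.Prob

/-!
# Small ball probabilities
-/

set_option autoImplicit false

open Polynomial Filter Topology Finset MeasureTheory
open scoped ENNReal

namespace Pool.Agent.TH339.KE

/-- explicit formula for the derivative -/
noncomputable def fd (N : ℕ) (x : Fin (N + 1) → ℂ) (z : ℂ) : ℂ :=
  ∑ k : Fin (N + 1), (b N k : ℂ) * x k * ((k : ℕ) * z ^ ((k : ℕ) - 1))

lemma deriv_f_fd (N : ℕ) (x : Fin (N + 1) → ℂ) (z : ℂ) : deriv (f N x) z = fd N x z := by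
  rw [deriv_f]
  unfold P fd
  rw [derivative_sum, eval_finsetSum]
  refine Finset.sum_congr rfl fun k _ => ?_
  rw [derivative_C_mul, derivative_X_pow]
  simp

lemma deriv_h_fd (N : ℕ) (x : Fin (N + 1) → ℂ) (z : ℂ) : deriv (h N x) z = fd N x z := by
  rw [← deriv_f_eq, deriv_f_fd]

lemma continuous_f (N : ℕ) : Continuous fun p : (Fin (N + 1) → ℂ) × ℂ => f N p.1 p.2 := by
  unfold f
  fun_prop

lemma h_eq (N : ℕ) (x : Fin (N + 1) → ℂ) (z : ℂ) : h N x z = f N x z - x 0 := by
  rw [f_eq]; ring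

lemma continuous_h (N : ℕ) : Continuous fun p : (Fin (N + 1) → ℂ) × ℂ => h N p.1 p.2 := by
  simp only [h_eq]
  exact (continuous_f N).sub ((continuous_apply 0).comp continuous_fst)

lemma continuous_fd (N : ℕ) : Continuous fun p : (Fin (N + 1) → ℂ) × ℂ => fd N p.1 p.2 := by
  unfold fd
  fun_prop

lemma continuous_h_left (N : ℕ) (z : ℂ) : Continuous fun x : Fin (N + 1) → ℂ => h N x z := by
  simp only [h_eq]
  unfold f
  fun_prop

lemma continuous_fd_left (N : ℕ) (z : ℂ) : Continuous fun x : Fin (N + 1) → ℂ => fd N x z := by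
  unfold fd
  fun_prop

lemma measurableSet_h_le (N : ℕ) (z : ℂ) (a : ℝ) :
    MeasurableSet {x : Fin (N + 1) → ℂ | ‖h N x z‖ ≤ a} :=
  (isClosed_le (continuous_h_left N z).norm continuous_const).measurableSet

/-- the combination that does not depend on the `l`-th coordinate -/
noncomputable def GG (N : ℕ) (z : ℂ) (l : ℕ) (x : Fin (N + 1) → ℂ) : ℂ :=
  z * deriv (h N x) z - l * h N x z

lemma continuous_GG (N : ℕ) (z : ℂ) (l : ℕ) : Continuous (GG N z l) := by
  have h1 : GG N z l = fun x => z * fd N x z - l * h N x z := by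
    funext x
    unfold GG
    rw [deriv_h_fd]
  rw [h1]
  have h2 := continuous_fd_left N z
  have h3 := continuous_h_left N z
  fun_prop

lemma measurableSet_GG_le (N : ℕ) (z : ℂ) (l : ℕ) (a : ℝ) :
    MeasurableSet {x : Fin (N + 1) → ℂ | ‖GG N z l x‖ ≤ a} :=
  (isClosed_le (continuous_GG N z l).norm continuous_const).measurableSet

lemma deriv_h_update (N : ℕ) (x : Fin (N + 1) → ℂ) (z : ℂ) (k : Fin (N + 1)) (hk : k ≠ 0) (t : ℂ) :
    z * deriv (h N (Function.update x k t)) z =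
      z * deriv (h N x) z + (b N k : ℂ) * (t - x k) * ((k : ℕ) * z ^ (k : ℕ)) := by
  have h1 : h N (Function.update x k t) =
      fun w => h N x w + (b N k : ℂ) * (t - x k) * w ^ (k : ℕ) := by
    funext w
    exact h_update N x w k hk t
  have h2 : deriv (h N (Function.update x k t)) z =
      deriv (h N x) z + (b N k : ℂ) * (t - x k) * ((k : ℕ) * z ^ ((k : ℕ) - 1)) := by
    rw [h1, deriv_fun_add (differentiable_h N x z) (by fun_prop), deriv_const_mul_field,
      deriv_pow_field]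
  rw [h2]
  have h3 : 1 ≤ (k : ℕ) := Nat.one_le_iff_ne_zero.mpr fun h0 => hk (Fin.ext h0)
  have h4 : z ^ (k : ℕ) = z * z ^ ((k : ℕ) - 1) := by
    rw [← pow_succ', Nat.sub_add_cancel h3]
  rw [h4]
  ring

variable {N : ℕ} {μ : Fin (N + 1) → Measure ℂ} {D : ℝ}

lemma norm_coef (N : ℕ) (z : ℂ) (k : ℕ) : ‖(b N k : ℂ) * z ^ k‖ ^ 2 = u2 N z k := by
  rw [norm_mul, norm_pow, Complex.norm_real, Real.norm_eq_abs, abs_of_nonneg (b_nonneg N k), u2_eq]

/-- Small ball probability for the value. -/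
lemma prob_h [∀ i, IsProbabilityMeasure (μ i)] (hD : 0 ≤ D) (hμ : ∀ i, Dens D (μ i)) (z : ℂ)
    (hz : 2 ≤ S2 N z) (a : ℝ) (ha : 0 ≤ a) :
    Measure.pi μ {x | ‖h N x z‖ ≤ a} ≤ ENNReal.ofReal (2 * Real.pi * D * N * a ^ 2 / S2 N z) := by
  obtain ⟨k, hk1, hkN, hk⟩ := exists_max N z hz
  have hS := S2_pos N z
  have hN : 0 < N := by omega
  have hNR : (0 : ℝ) < N := by exact_mod_cast hN
  have hu : 0 < u2 N z k := lt_of_lt_of_le (by positivity) hk
  set K : Fin (N + 1) := ⟨k, by omega⟩ with hK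
  have hK0 : K ≠ 0 := fun h0 => by
    have := congrArg Fin.val h0
    simp [hK] at this
    omega
  have hmeas : MeasurableSet {x | ‖h N x z‖ ≤ a} := measurableSet_h_le N z a
  have hα : (b N k : ℂ) * z ^ k ≠ 0 := by
    intro h0
    have := norm_coef N z k
    rw [h0, norm_zero] at this
    simp at this
    exact hu.ne this
  have h1 := measure_le_of_slice (μ := μ) K _ hmeas
    (fun _ => ENNReal.ofReal (Real.pi * D * a ^ 2 / u2 N z k)) fun x => ?_
  · rw [lintegral_const, measure_univ, mul_one] at h1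
    refine h1.trans (ENNReal.ofReal_le_ofReal ?_)
    calc Real.pi * D * a ^ 2 / u2 N z k ≤ Real.pi * D * a ^ 2 / (S2 N z / (2 * N)) := by
          gcongr
      _ = _ := by field_simp
  · have h2 := small_ball (hμ K) hD ((b N k : ℂ) * z ^ k) (h N x z - (b N k : ℂ) * z ^ k * x K) hα
      a ha
    rw [norm_coef] at h2
    refine le_trans (le_of_eq ?_) h2
    congr 1
    ext t
    simp only [Set.mem_ofPred_eq]
    rw [h_update N x z K hK0 t]
    have : h N x z + (b N (K : ℕ) : ℂ) * (t - x K) * z ^ (K : ℕ) =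
        (b N k : ℂ) * z ^ k * t + (h N x z - (b N k : ℂ) * z ^ k * x K) := by
      simp only [hK]; ring
    rw [this]

/-- Small ball probability for the value and the derivative. -/
lemma prob_joint [∀ i, IsProbabilityMeasure (μ i)] (hD : 0 ≤ D) (hμ : ∀ i, Dens D (μ i))
    (hN : 2 ≤ N) (z : ℂ) (hz : 2 ≤ S2 N z) (q : ℝ) (hq0 : 0 < q) (hq : q * N ≤ ‖z‖ ^ 2)
    (hq' : q * ‖z‖ ^ 2 ≤ 1) (a c : ℝ) (ha : 0 ≤ a) (hc : 0 ≤ c) :
    Measure.pi μ {x | ‖h N x z‖ ≤ a ∧ ‖fd N x z‖ ≤ c} ≤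
      ENNReal.ofReal ((2 * Real.pi * D * N) ^ 2 * a ^ 2 * (‖z‖ * c + N * a) ^ 2 /
        (q * S2 N z ^ 2)) := by
  obtain ⟨k, hk1, hkN, hk⟩ := exists_max N z hz
  obtain ⟨l, hl1, hlN, hkl, hl⟩ := exists_adj N hN z q hq0 hq hq' k hk1 hkN
  have hS := S2_pos N z
  have hNR : (2 : ℝ) ≤ N := by exact_mod_cast hN
  have hu : 0 < u2 N z k := lt_of_lt_of_le (by positivity) hk
  have hul : 0 < u2 N z l := lt_of_lt_of_le (by positivity) hl
  set K : Fin (N + 1) := ⟨k, by omega⟩ with hK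
  set L : Fin (N + 1) := ⟨l, by omega⟩ with hL
  have hK0 : K ≠ 0 := fun h0 => by
    have := congrArg Fin.val h0
    simp [hK] at this
    omega
  have hL0 : L ≠ 0 := fun h0 => by
    have := congrArg Fin.val h0
    simp [hL] at this
    omega
  have hKL : ((K : ℕ) : ℂ) = k := rfl
  have hLL : ((L : ℕ) : ℂ) = l := rfl
  set bb : ℝ := ‖z‖ * c + N * a with hbb
  have hbb0 : 0 ≤ bb := by positivity
  have hEm : MeasurableSet {x | ‖h N x z‖ ≤ a} := measurableSet_h_le N z a
  have hFm : MeasurableSet {x | ‖GG N z l x‖ ≤ bb} := measurableSet_GG_le N z l bb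
  have hcoef : ∀ m : ℕ, 0 < u2 N z m → (b N m : ℂ) * z ^ m ≠ 0 := by
    intro m hm h0
    have := norm_coef N z m
    rw [h0, norm_zero] at this
    simp at this
    exact hm.ne this
  have hsub : {x | ‖h N x z‖ ≤ a ∧ ‖fd N x z‖ ≤ c} ⊆ {x | ‖h N x z‖ ≤ a} ∩ {x | ‖GG N z l x‖ ≤ bb} := by
    rintro x ⟨h1, h2⟩
    refine ⟨h1, ?_⟩
    show ‖z * deriv (h N x) z - l * h N x z‖ ≤ bb
    rw [deriv_h_fd]
    refine (norm_sub_le _ _).trans ?_
    rw [norm_mul, norm_mul, Complex.norm_natCast, hbb]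
    have : (l : ℝ) ≤ N := by exact_mod_cast hlN
    gcongr
  have hGl : ∀ (x : Fin (N + 1) → ℂ) (t : ℂ), GG N z l (Function.update x L t) = GG N z l x := by
    intro x t
    show z * deriv (h N (Function.update x L t)) z - l * h N (Function.update x L t) z =
      z * deriv (h N x) z - l * h N x z
    rw [deriv_h_update N x z L hL0 t, h_update N x z L hL0 t, hLL]
    ring
  have hGk : ∀ (x : Fin (N + 1) → ℂ) (t : ℂ), GG N z l (Function.update x K t) =
      (((k : ℂ) - l) * ((b N k : ℂ) * z ^ k)) * t +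
        (GG N z l x - (((k : ℂ) - l) * ((b N k : ℂ) * z ^ k)) * x K) := by
    intro x t
    show z * deriv (h N (Function.update x K t)) z - l * h N (Function.update x K t) z =
      _ + ((z * deriv (h N x) z - l * h N x z) - _)
    rw [deriv_h_update N x z K hK0 t, h_update N x z K hK0 t, hKL]
    have : (K : ℕ) = k := rfl
    rw [this]
    ring
  have hkl1 : ‖(k : ℂ) - l‖ = 1 := by
    rcases hkl with h | h
    · rw [h]; push_cast; simp
    · rw [h]; push_cast; simp
  have h1 := measure_two_le (μ := μ) K L _ _ hEm hFm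
    (ENNReal.ofReal (Real.pi * D * a ^ 2 / u2 N z l))
    (ENNReal.ofReal (Real.pi * D * bb ^ 2 / u2 N z k)) (fun x => ?_) (fun x t ht => ?_)
    (fun x => ?_)
  · refine ((measure_mono hsub).trans h1).trans ?_
    rw [← ENNReal.ofReal_mul (by positivity)]
    apply ENNReal.ofReal_le_ofReal
    have h2 : q * (S2 N z / (2 * N)) ≤ u2 N z l := le_trans (by gcongr) hl
    calc Real.pi * D * a ^ 2 / u2 N z l * (Real.pi * D * bb ^ 2 / u2 N z k)
        ≤ Real.pi * D * a ^ 2 / (q * (S2 N z / (2 * N))) *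
          (Real.pi * D * bb ^ 2 / (S2 N z / (2 * N))) := by gcongr
      _ = _ := by field_simp
  · have h2 := small_ball (hμ L) hD ((b N l : ℂ) * z ^ l) (h N x z - (b N l : ℂ) * z ^ l * x L)
      (hcoef l hul) a ha
    rw [norm_coef] at h2
    refine le_trans (le_of_eq ?_) h2
    congr 1
    ext t
    simp only [Set.mem_ofPred_eq]
    rw [h_update N x z L hL0 t]
    have : h N x z + (b N (L : ℕ) : ℂ) * (t - x L) * z ^ (L : ℕ) =
        (b N l : ℂ) * z ^ l * t + (h N x z - (b N l : ℂ) * z ^ l * x L) := by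
      simp only [hL]; ring
    rw [this]
  · have h3 : ‖GG N z l (Function.update x L t)‖ ≤ bb := ht
    rw [hGl] at h3
    exact h3
  · have hne : ((k : ℂ) - l) * ((b N k : ℂ) * z ^ k) ≠ 0 := by
      refine mul_ne_zero (fun h0 => ?_) (hcoef k hu)
      rw [h0, norm_zero] at hkl1
      exact zero_ne_one hkl1
    have h2 := small_ball (hμ K) hD (((k : ℂ) - l) * ((b N k : ℂ) * z ^ k))
      (GG N z l x - (((k : ℂ) - l) * ((b N k : ℂ) * z ^ k)) * x K) hne bb hbb0
    rw [norm_mul, hkl1, one_mul, norm_coef] at h2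
    refine le_trans (le_of_eq ?_) h2
    congr 1
    ext t
    simp only [Set.mem_ofPred_eq]
    rw [hGk]

end Pool.Agent.TH339.KE
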